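import Pool.Agent.X179.NB.Fam

/-!
# The sharp norm bound and the sign inequality, in spectral form
-/

set_option autoImplicit false

namespace Pool.Agent.X179.NB

open Finset Pool.Agent.TH594.HP Pool.Agent.TH594.HE

variable {J : Type*} [Fintype J] [DecidableEq J] {h : Pr J → Matrix J J ℝ}

/-- the cubic form -/
noncomputable def G3 (h : Pr J → Matrix J J ℝ) (s : Pr J → ℝ) : ℝ :=
  ∑ a, ∑ b, ∑ c, s a * s b * s c * pp h a b c

/-- the quadratic form -/
noncomputable def G2 (h : Pr J → Matrix J J ℝ) (s : Pr J → ℝ) : ℝ :=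
  ∑ a, ∑ b, s a * s b * HH h a b

/-- the Ricci tensor, up to sign -/
noncomputable def MM (h : Pr J → Matrix J J ℝ) (s : Pr J → ℝ) : Matrix J J ℝ :=
  ∑ a, s a • (h a * h a)

/-- squared norm of the Ricci tensor -/
noncomputable def rr (h : Pr J → Matrix J J ℝ) (s : Pr J → ℝ) : ℝ := ∑ i, ∑ j, MM h s i j ^ 2

theorem MM_symm (H : Cpl h) (s : Pr J → ℝ) : (MM h s).transpose = MM h s := by
  unfold MM
  rw [Matrix.transpose_sum]
  refine Finset.sum_congr rfl fun a _ => ?_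
  rw [Matrix.transpose_smul, Matrix.transpose_mul, (H.sk a).transpose, neg_mul_neg]

theorem rr_eq (H : Cpl h) (s : Pr J → ℝ) : rr h s = Matrix.trace (MM h s * MM h s) := by
  unfold rr Matrix.trace
  refine Finset.sum_congr rfl fun i _ => ?_
  rw [Matrix.diag_apply, Matrix.mul_apply]
  refine Finset.sum_congr rfl fun j _ => ?_
  have : MM h s j i = MM h s i j := congrFun (congrFun (MM_symm H s) i) j
  rw [this, sq]

theorem tr_MM (H : Cpl h) (s : Pr J → ℝ) : Matrix.trace (MM h s) = -2 * ∑ a, s a := by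
  unfold MM
  rw [Matrix.trace_sum, Finset.mul_sum]
  refine Finset.sum_congr rfl fun a _ => ?_
  have h1 := sp_tr (H.sk a) (h a)
  rw [H.on a a, if_pos rfl] at h1
  rw [Matrix.trace_smul, smul_eq_mul]
  have h2 : Matrix.trace (h a * h a) = -2 := by linarith
  rw [h2]
  ring

theorem rr_ge (H : Cpl h) (hJ : Fintype.card J = 6) (s : Pr J → ℝ) :
    2 / 3 * (∑ a, s a) ^ 2 ≤ rr h s := by
  have h1 : (∑ i, MM h s i i) ^ 2 ≤ 6 * ∑ i, MM h s i i ^ 2 := by
    have := sq_sum_le_card_mul_sum_sq (s := (univ : Finset J)) (f := fun i => MM h s i i)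
    rw [Finset.card_univ, hJ] at this
    exact_mod_cast this
  have h2 : ∑ i, MM h s i i ^ 2 ≤ rr h s := by
    unfold rr
    refine Finset.sum_le_sum fun i _ => ?_
    exact Finset.single_le_sum (f := fun j => MM h s i j ^ 2) (fun j _ => sq_nonneg _) (mem_univ i)
  have h3 : ∑ i, MM h s i i = -2 * ∑ a, s a := tr_MM H s
  rw [h3] at h1
  linarith

omit [DecidableEq J] in
theorem rr_nonneg (s : Pr J → ℝ) : 0 ≤ rr h s :=
  Finset.sum_nonneg fun _ _ => Finset.sum_nonneg fun _ _ => sq_nonneg _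

theorem G2_eq (H : Cpl h) (hJ : Fintype.card J = 6) (s : Pr J → ℝ) :
    G2 h s = 64 * ((∑ a, s a) ^ 2 + ∑ a, s a ^ 2 - rr h s) := by
  have h1 : ∀ a b, s a * s b * HH h a b = 64 * (s a * s b * (if a = b then 1 else 0)) +
      64 * (s a * s b) + 64 * (s a * s b * (2 * sp (h b) (h a * h a * h b))) := by
    intro a b
    rw [HH_eq H hJ]
    ring
  unfold G2
  simp only [h1, Finset.sum_add_distrib, ← Finset.mul_sum]
  have e1 : ∑ a, ∑ b, s a * s b * (if a = b then (1 : ℝ) else 0) = ∑ a, s a ^ 2 := by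
    refine Finset.sum_congr rfl fun a _ => ?_
    rw [Finset.sum_eq_single a]
    · rw [if_pos rfl]; ring
    · intro b _ hb
      rw [if_neg (Ne.symm hb), mul_zero]
    · simp
  have e2 : ∑ a, s a * ∑ b, s b = (∑ a, s a) ^ 2 := by
    rw [← Finset.sum_mul, sq]
  have e3 : ∑ a, ∑ b, s a * s b * (2 * sp (h b) (h a * h a * h b)) = - rr h s := by
    rw [rr_eq H]
    unfold MM
    rw [Finset.sum_mul_sum, Matrix.trace_sum, ← Finset.sum_neg_distrib]
    refine Finset.sum_congr rfl fun a _ => ?_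
    rw [Matrix.trace_sum, ← Finset.sum_neg_distrib]
    refine Finset.sum_congr rfl fun b _ => ?_
    rw [sp_tr (H.sk b), Matrix.smul_mul, Matrix.mul_smul, Matrix.trace_smul, Matrix.trace_smul,
      smul_eq_mul, smul_eq_mul, Matrix.trace_mul_comm (h b), ← Matrix.mul_assoc]
    ring
  rw [e1, e2, e3]
  ring

theorem G2_le (H : Cpl h) (hJ : Fintype.card J = 6) (s : Pr J → ℝ) : G2 h s ≤ 64 * qq s := by
  rw [G2_eq H hJ]
  have := rr_ge H hJ s
  unfold qq
  linarith

theorem HH_row (H : Cpl h) (hJ : Fintype.card J = 6) (a : Pr J) : ∑ b, HH h a b = 384 := by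
  have h1 : ∀ b, HH h a b = 4 * nn (LM (h b) (LM (h a) (vac : Fk J))) := by
    intro b
    unfold HH pp
    rw [H.sum_nn (Dg_LM (Dg_LM Dg_vac (h a)) (h b)), hJ]
    push_cast
    ring
  simp only [h1]
  rw [← Finset.mul_sum, H.sum_nn (Dg_LM Dg_vac (h a)), nn_two (H.sk a), H.on, if_pos rfl, hJ]
  push_cast
  ring

theorem card_Pr (H : Cpl h) (hJ : Fintype.card J = 6) : Fintype.card (Pr J) = 15 := by
  have h1 : ∑ a : Pr J, sp (h a) (h a) = 15 := by
    unfold sp
    rw [← Finset.mul_sum, Finset.sum_comm]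
    have h2 : ∀ i, ∑ a, ∑ j, h a i j * h a i j = ∑ j, (1 - if i = j then (1 : ℝ) else 0) := by
      intro i
      rw [Finset.sum_comm]
      refine Finset.sum_congr rfl fun j _ => ?_
      rw [H.cp]
      by_cases hij : i = j
      · subst hij; simp
      · simp [hij, Ne.symm hij]
    simp only [h2, Finset.sum_sub_distrib]
    simp [hJ]
    norm_num
  simp only [H.on, if_true] at h1
  rw [Finset.sum_const, Finset.card_univ, nsmul_eq_mul, mul_one] at h1
  exact_mod_cast h1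

theorem amgm {u v w : ℝ} (hu : 0 ≤ u) (hv : 0 ≤ v) (hw : 0 ≤ w) :
    3 * (u * v * w) ≤ u ^ 3 + v ^ 3 + w ^ 3 := by
  nlinarith [mul_nonneg (add_nonneg (add_nonneg hu hv) hw)
    (add_nonneg (add_nonneg (sq_nonneg (u - v)) (sq_nonneg (v - w))) (sq_nonneg (w - u)))]

theorem G3_abs (s : Pr J → ℝ) :
    |G3 h s| ≤ G2 h (fun a => Real.sqrt |s a| ^ 3) := by
  set z : Pr J → ℝ := fun a => Real.sqrt |s a| with hz
  have hz0 : ∀ a, 0 ≤ z a := fun a => Real.sqrt_nonneg _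
  have hz2 : ∀ a, |s a| = z a ^ 2 := fun a => (Real.sq_sqrt (abs_nonneg _)).symm
  have h1 : |G3 h s| ≤ ∑ a, ∑ b, ∑ c, z a ^ 2 * z b ^ 2 * z c ^ 2 * pp h a b c := by
    unfold G3
    refine (Finset.abs_sum_le_sum_abs _ _).trans (Finset.sum_le_sum fun a _ => ?_)
    refine (Finset.abs_sum_le_sum_abs _ _).trans (Finset.sum_le_sum fun b _ => ?_)
    refine (Finset.abs_sum_le_sum_abs _ _).trans (Finset.sum_le_sum fun c _ => ?_)
    rw [abs_mul, abs_mul, abs_mul, abs_of_nonneg (pp_nonneg a b c), hz2, hz2, hz2]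
  have h2 : ∀ a b c, z a ^ 2 * z b ^ 2 * z c ^ 2 * pp h a b c ≤
      1 / 3 * (z a ^ 3 * z b ^ 3 * pp h a b c + z b ^ 3 * z c ^ 3 * pp h a b c +
        z c ^ 3 * z a ^ 3 * pp h a b c) := by
    intro a b c
    have h3 := amgm (mul_nonneg (hz0 a) (hz0 b)) (mul_nonneg (hz0 b) (hz0 c))
      (mul_nonneg (hz0 c) (hz0 a))
    have h4 := mul_le_mul_of_nonneg_right h3 (pp_nonneg (h := h) a b c)
    calc z a ^ 2 * z b ^ 2 * z c ^ 2 * pp h a b c
        = 1 / 3 * (3 * (z a * z b * (z b * z c) * (z c * z a)) * pp h a b c) := by ring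
      _ ≤ 1 / 3 * (((z a * z b) ^ 3 + (z b * z c) ^ 3 + (z c * z a) ^ 3) * pp h a b c) := by
          linarith
      _ = _ := by ring
  refine h1.trans ?_
  refine (Finset.sum_le_sum fun a _ => Finset.sum_le_sum fun b _ => Finset.sum_le_sum fun c _ =>
    h2 a b c).trans (le_of_eq ?_)
  simp only [← Finset.mul_sum, Finset.sum_add_distrib]
  have e1 : ∑ a, ∑ b, ∑ c, z a ^ 3 * z b ^ 3 * pp h a b c = G2 h (fun a => z a ^ 3) := by
    unfold G2 HH
    simp only [Finset.mul_sum]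
  have e2 : ∑ a, ∑ b, ∑ c, z b ^ 3 * z c ^ 3 * pp h a b c = G2 h (fun a => z a ^ 3) := by
    rw [← e1, Finset.sum_comm]
    refine Finset.sum_congr rfl fun b _ => ?_
    rw [Finset.sum_comm]
    refine Finset.sum_congr rfl fun c _ => Finset.sum_congr rfl fun a _ => ?_
    rw [← pp_swap1, pp_swap2]
  have e3 : ∑ a, ∑ b, ∑ c, z c ^ 3 * z a ^ 3 * pp h a b c = G2 h (fun a => z a ^ 3) := by
    rw [← e1]
    refine Finset.sum_congr rfl fun a _ => ?_
    rw [Finset.sum_comm]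
    refine Finset.sum_congr rfl fun c _ => Finset.sum_congr rfl fun b _ => ?_
    rw [← pp_swap2]
    ring
  have e1' : ∑ a, ∑ b, z a ^ 3 * z b ^ 3 * ∑ c, pp h a b c = G2 h (fun a => z a ^ 3) := rfl
  rw [e1', e2, e3]
  ring

/-- **the sharp norm bound** -/
theorem G3_sq (H : Cpl h) (hJ : Fintype.card J = 6) (s : Pr J → ℝ) :
    G3 h s ^ 2 ≤ 5760 ^ 2 * ((∑ a, s a ^ 2) / 15) ^ 3 := by
  have h1 := (G3_abs (h := h) s).trans (G2_le H hJ _)
  have h2 := hyper (card_Pr H hJ) (fun a => Real.sqrt |s a|)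
  have h3 : ∀ a, Real.sqrt |s a| ^ 4 = s a ^ 2 := by
    intro a
    have : Real.sqrt |s a| ^ 2 = |s a| := Real.sq_sqrt (abs_nonneg _)
    calc Real.sqrt |s a| ^ 4 = (Real.sqrt |s a| ^ 2) ^ 2 := by ring
      _ = s a ^ 2 := by rw [this, sq_abs]
  simp only [h3] at h2
  have h4 := pow_le_pow_left₀ (abs_nonneg _) h1 2
  rw [sq_abs] at h4
  calc G3 h s ^ 2 ≤ (64 * qq fun a => Real.sqrt |s a| ^ 3) ^ 2 := h4
    _ = 5760 ^ 2 * ((qq fun a => Real.sqrt |s a| ^ 3) / 90) ^ 2 := by ring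
    _ ≤ _ := mul_le_mul_of_nonneg_left h2 (by norm_num)

theorem G3_shift (H : Cpl h) (hJ : Fintype.card J = 6) (s : Pr J → ℝ) (c : ℝ) :
    G3 h (fun a => s a - c) = G3 h s - 3 * c * G2 h s + 3 * c ^ 2 * (384 * ∑ a, s a) -
      5760 * c ^ 3 := by
  have e0 : G3 h (fun a => s a - c) = ∑ a, ∑ b, ∑ d, (s a * s b * s d * pp h a b d -
      c * (s a * s b * pp h a b d) - c * (s b * s d * pp h a b d) - c * (s a * s d * pp h a b d) +
      c ^ 2 * (s a * pp h a b d) + c ^ 2 * (s b * pp h a b d) + c ^ 2 * (s d * pp h a b d) -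
      c ^ 3 * pp h a b d) := by
    unfold G3
    exact Finset.sum_congr rfl fun a _ => Finset.sum_congr rfl fun b _ =>
      Finset.sum_congr rfl fun d _ => by ring
  rw [e0]
  simp only [Finset.sum_add_distrib, Finset.sum_sub_distrib, ← Finset.mul_sum]
  have p1 : ∑ a, ∑ b, s a * s b * ∑ d, pp h a b d = G2 h s := rfl
  have p2 : ∑ a, ∑ b, ∑ d, s b * s d * pp h a b d = G2 h s := by
    rw [← p1]
    simp only [Finset.mul_sum]
    rw [Finset.sum_comm]
    refine Finset.sum_congr rfl fun b _ => ?_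
    rw [Finset.sum_comm]
    refine Finset.sum_congr rfl fun d _ => Finset.sum_congr rfl fun a _ => ?_
    rw [← pp_swap1, pp_swap2]
  have p3 : ∑ a, ∑ b, ∑ d, s a * s d * pp h a b d = G2 h s := by
    rw [← p1]
    simp only [Finset.mul_sum]
    refine Finset.sum_congr rfl fun a _ => ?_
    rw [Finset.sum_comm]
    refine Finset.sum_congr rfl fun d _ => Finset.sum_congr rfl fun b _ => ?_
    rw [← pp_swap2]
  have q1 : ∑ a, s a * ∑ b, ∑ d, pp h a b d = 384 * ∑ a, s a := by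
    have : ∀ a, ∑ b, ∑ d, pp h a b d = 384 := fun a => HH_row H hJ a
    simp only [this]
    rw [← Finset.sum_mul, mul_comm]
  have q2 : ∑ a, ∑ b, s b * ∑ d, pp h a b d = 384 * ∑ a, s a := by
    rw [← q1, Finset.sum_comm]
    refine Finset.sum_congr rfl fun b _ => ?_
    rw [← Finset.mul_sum]
    congr 1
    exact Finset.sum_congr rfl fun a _ => Finset.sum_congr rfl fun d _ => (pp_swap1 _ _ _).symm
  have q3 : ∑ a, ∑ b, ∑ d, s d * pp h a b d = 384 * ∑ a, s a := by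
    rw [← q2]
    refine Finset.sum_congr rfl fun a _ => ?_
    simp only [Finset.mul_sum]
    rw [Finset.sum_comm]
    refine Finset.sum_congr rfl fun d _ => Finset.sum_congr rfl fun b _ => ?_
    rw [← pp_swap2]
  have r0 : ∑ a, ∑ b, ∑ d, pp h a b d = 5760 := by
    have : ∀ a, ∑ b, ∑ d, pp h a b d = 384 := fun a => HH_row H hJ a
    simp only [this]
    rw [Finset.sum_const, Finset.card_univ, card_Pr H hJ, nsmul_eq_mul]
    norm_num
  have g : ∑ a, ∑ b, ∑ d, s a * s b * s d * pp h a b d = G3 h s := rfl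
  rw [q1, q2, q3, r0, p1, p2, p3, g]
  ring

/-- **the sign inequality** -/
theorem sign_core (H : Cpl h) (hJ : Fintype.card J = 6) (s : Pr J → ℝ) :
    12 * (4 * ∑ a, s a ^ 2) * ((2 * ∑ a, s a) ^ 2 - 2 * (4 * ∑ a, s a ^ 2) - 4 * rr h s) ≤
      (2 * ∑ a, s a) * G3 h s := by
  set S : ℝ := 2 * ∑ a, s a with hS
  set N : ℝ := 4 * ∑ a, s a ^ 2 with hN
  have hN0 : 0 ≤ N := by
    have : 0 ≤ ∑ a, s a ^ 2 := Finset.sum_nonneg fun a _ => sq_nonneg _
    linarith
  have hr := rr_nonneg (h := h) s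
  rcases eq_or_ne S 0 with h0 | h0
  · rw [h0]
    nlinarith
  set c : ℝ := N / (4 * S) with hc
  have hcS : c * S = N / 4 := by rw [hc]; field_simp
  have h1 := G3_sq H hJ (fun a => s a - c)
  have h2 : ∑ a, (s a - c) ^ 2 = 15 * c ^ 2 := by
    have e : ∀ a, (s a - c) ^ 2 = s a ^ 2 - 2 * c * s a + c ^ 2 := fun a => by ring
    simp only [e, Finset.sum_add_distrib, Finset.sum_sub_distrib, ← Finset.mul_sum,
      Finset.sum_const, Finset.card_univ, card_Pr H hJ, nsmul_eq_mul]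
    push_cast
    have : ∑ a, s a ^ 2 = N / 4 := by rw [hN]; ring
    rw [this, ← hcS, hS]
    ring
  rw [h2] at h1
  have h3 : |G3 h (fun a => s a - c)| ≤ 5760 * |c| ^ 3 := by
    refine abs_le_of_sq_le_sq ?_ (by positivity)
    calc G3 h (fun a => s a - c) ^ 2 ≤ 5760 ^ 2 * (15 * c ^ 2 / 15) ^ 3 := h1
      _ = (5760 * |c| ^ 3) ^ 2 := by
        have : |c| ^ 2 = c ^ 2 := sq_abs c
        calc 5760 ^ 2 * (15 * c ^ 2 / 15) ^ 3 = 5760 ^ 2 * (c ^ 2) ^ 3 := by ring
          _ = 5760 ^ 2 * (|c| ^ 2) ^ 3 := by rw [this]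
          _ = _ := by ring
  have h4 : -(5760 * c ^ 3 * S) ≤ S * G3 h (fun a => s a - c) := by
    have h5 : |S * G3 h (fun a => s a - c)| ≤ 5760 * c ^ 3 * S := by
      rw [abs_mul]
      have h6 : 0 ≤ c * S := by rw [hcS]; positivity
      have h7 : |c| * |S| = c * S := by rw [← abs_mul, abs_of_nonneg h6]
      calc |S| * |G3 h (fun a => s a - c)| ≤ |S| * (5760 * |c| ^ 3) :=
            mul_le_mul_of_nonneg_left h3 (abs_nonneg _)
        _ = 5760 * |c| ^ 2 * (|c| * |S|) := by ring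
        _ = 5760 * c ^ 3 * S := by rw [h7, sq_abs]; ring
    exact (abs_le.1 h5).1
  rw [G3_shift H hJ, G2_eq H hJ] at h4
  have e1 : ∑ a, s a = S / 2 := by rw [hS]; ring
  have e2 : ∑ a, s a ^ 2 = N / 4 := by rw [hN]; ring
  rw [e1, e2] at h4
  -- everything in terms of `c S = N / 4`
  have h5 : S * (G3 h s - 3 * c * (64 * ((S / 2) ^ 2 + N / 4 - rr h s)) +
      3 * c ^ 2 * (384 * (S / 2)) - 5760 * c ^ 3) =
      S * G3 h s - 48 * (c * S) * (S ^ 2 + N - 4 * rr h s) + 576 * (c * S) ^ 2 -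
        5760 * c ^ 3 * S := by ring
  rw [h5, hcS] at h4
  nlinarith

end Pool.Agent.X179.NB
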