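import Mathlib

/-!
# A hypercontractive inequality for fifteen numbers
-/

set_option autoImplicit false

namespace Pool.Agent.X179.NB

open Finset

variable {P : Type*} [Fintype P]

/-- the quadratic form -/
noncomputable def qq (x : P → ℝ) : ℝ := ∑ a, x a ^ 2 + 1 / 3 * (∑ a, x a) ^ 2

theorem fourth (hP : Fintype.card P = 15) (x : P → ℝ) :
    ∑ a, (1 / 6 * x a + 5 / 6 * ((∑ b, x b) / 15)) ^ 4 ≤ 15 * (qq x / 90) ^ 2 := by
  set m : ℝ := (∑ b, x b) / 15 with hm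
  set τ : P → ℝ := fun a => x a - m with hτ
  have hsum : ∑ b, x b = 15 * m := by rw [hm]; ring
  have hτ0 : ∑ a, τ a = 0 := by
    simp only [τ]
    rw [Finset.sum_sub_distrib, Finset.sum_const, Finset.card_univ, hP, nsmul_eq_mul, hsum]
    push_cast
    ring
  set v : ℝ := ∑ a, τ a ^ 2 with hv
  have hv0 : 0 ≤ v := Finset.sum_nonneg fun a _ => sq_nonneg _
  have hx2 : ∑ a, x a ^ 2 = v + 15 * m ^ 2 := by
    have h1 : ∀ a, x a ^ 2 = τ a ^ 2 + 2 * m * τ a + m ^ 2 := fun a => by simp only [τ]; ring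
    simp only [h1, Finset.sum_add_distrib, ← Finset.mul_sum, hτ0, Finset.sum_const,
      Finset.card_univ, hP, nsmul_eq_mul]
    push_cast
    ring
  have hq : qq x / 90 = m ^ 2 + v / 90 := by
    unfold qq
    rw [hx2, hsum]
    ring
  have hle : ∀ a, τ a ^ 2 ≤ v := fun a =>
    Finset.single_le_sum (f := fun a => τ a ^ 2) (fun a _ => sq_nonneg _) (mem_univ a)
  have h4 : ∑ a, τ a ^ 4 ≤ v ^ 2 := by
    calc ∑ a, τ a ^ 4 ≤ ∑ a, v * τ a ^ 2 := Finset.sum_le_sum fun a _ => by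
          have := mul_le_mul_of_nonneg_right (hle a) (sq_nonneg (τ a))
          calc τ a ^ 4 = τ a ^ 2 * τ a ^ 2 := by ring
            _ ≤ v * τ a ^ 2 := this
      _ = v ^ 2 := by rw [← Finset.mul_sum]; ring
  have h3 : (1 / 54) * m * ∑ a, τ a ^ 3 ≤ m ^ 2 * v / 6 + (∑ a, τ a ^ 4) / 1944 := by
    have h5 : ∀ a, (1 / 54) * m * τ a ^ 3 ≤ m ^ 2 / 6 * τ a ^ 2 + τ a ^ 4 / 1944 := by
      intro a
      have h6 : 0 ≤ τ a ^ 2 * (18 * m - τ a) ^ 2 := by positivity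
      nlinarith
    calc (1 / 54) * m * ∑ a, τ a ^ 3 = ∑ a, (1 / 54) * m * τ a ^ 3 := by rw [Finset.mul_sum]
      _ ≤ ∑ a, (m ^ 2 / 6 * τ a ^ 2 + τ a ^ 4 / 1944) := Finset.sum_le_sum fun a _ => h5 a
      _ = _ := by
        rw [Finset.sum_add_distrib, ← Finset.mul_sum, ← Finset.sum_div]
        ring
  have hL : ∑ a, (1 / 6 * x a + 5 / 6 * m) ^ 4 =
      15 * m ^ 4 + m ^ 2 * v / 6 + (1 / 54) * m * (∑ a, τ a ^ 3) + (∑ a, τ a ^ 4) / 1296 := by
    have h1 : ∀ a, (1 / 6 * x a + 5 / 6 * m) ^ 4 =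
        m ^ 4 + 2 / 3 * m ^ 3 * τ a + m ^ 2 / 6 * τ a ^ 2 + (1 / 54) * m * τ a ^ 3 +
          1 / 1296 * τ a ^ 4 := fun a => by simp only [τ]; ring
    simp only [h1, Finset.sum_add_distrib, ← Finset.mul_sum, hτ0, Finset.sum_const,
      Finset.card_univ, hP, nsmul_eq_mul]
    push_cast
    ring
  rw [hL, hq]
  have h5 : 0 ≤ ∑ a, τ a ^ 4 := Finset.sum_nonneg fun a _ => by positivity
  nlinarith

/-- **the inequality for fifteen numbers** -/
theorem hyper (hP : Fintype.card P = 15) (z : P → ℝ) :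
    (qq (fun a => z a ^ 3) / 90) ^ 2 ≤ ((∑ a, z a ^ 4) / 15) ^ 3 := by
  set x : P → ℝ := fun a => z a ^ 3 with hx
  set w : P → ℝ := fun a => 1 / 6 * x a + 5 / 6 * ((∑ b, x b) / 15) with hw
  set p : ℝ := qq x / 90 with hp
  have hp0 : 0 ≤ p := by
    rw [hp]
    unfold qq
    have : 0 ≤ ∑ a, x a ^ 2 := Finset.sum_nonneg fun a _ => sq_nonneg _
    positivity
  have h1 : ∑ a, z a ^ 3 * w a = 15 * p := by
    have e : ∀ a, z a ^ 3 * w a = 1 / 6 * x a ^ 2 + 5 / 6 * ((∑ b, x b) / 15) * x a := fun a => by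
      simp only [w, x]; ring
    simp only [e, Finset.sum_add_distrib, ← Finset.mul_sum]
    rw [hp]
    unfold qq
    ring
  have h2 := fourth hP x
  rw [← hp] at h2
  -- two applications of the Cauchy-Schwarz inequality
  have c1 : (∑ a, z a ^ 3 * w a) ^ 2 ≤ (∑ a, z a ^ 4) * ∑ a, z a ^ 2 * w a ^ 2 := by
    have := Finset.sum_mul_sq_le_sq_mul_sq univ (fun a => z a ^ 2) (fun a => z a * w a)
    calc (∑ a, z a ^ 3 * w a) ^ 2 = (∑ a, z a ^ 2 * (z a * w a)) ^ 2 := by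
          congr 1
          exact Finset.sum_congr rfl fun a _ => by ring
      _ ≤ _ := this
      _ = _ := by
        congr 1
        · exact Finset.sum_congr rfl fun a _ => by ring
        · exact Finset.sum_congr rfl fun a _ => by ring
  have c2 : (∑ a, z a ^ 2 * w a ^ 2) ^ 2 ≤ (∑ a, z a ^ 4) * ∑ a, w a ^ 4 := by
    have := Finset.sum_mul_sq_le_sq_mul_sq univ (fun a => z a ^ 2) (fun a => w a ^ 2)
    calc (∑ a, z a ^ 2 * w a ^ 2) ^ 2 ≤ _ := this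
      _ = _ := by
        congr 1
        · exact Finset.sum_congr rfl fun a _ => by ring
        · exact Finset.sum_congr rfl fun a _ => by ring
  set Z : ℝ := ∑ a, z a ^ 4 with hZ
  have hZ0 : 0 ≤ Z := Finset.sum_nonneg fun a _ => by positivity
  set B : ℝ := ∑ a, z a ^ 2 * w a ^ 2 with hB
  have hB0 : 0 ≤ B := Finset.sum_nonneg fun a _ => by positivity
  rw [h1] at c1
  -- `(15 p)^4 ≤ Z^2 B^2 ≤ Z^3 ∑ w^4 ≤ Z^3 15 p^2`
  have h3 : (15 * p) ^ 4 ≤ Z ^ 3 * (15 * p ^ 2) := by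
    calc (15 * p) ^ 4 = ((15 * p) ^ 2) ^ 2 := by ring
      _ ≤ (Z * B) ^ 2 := pow_le_pow_left₀ (sq_nonneg _) c1 2
      _ = Z ^ 2 * B ^ 2 := by ring
      _ ≤ Z ^ 2 * (Z * (15 * p ^ 2)) := by
        refine mul_le_mul_of_nonneg_left (c2.trans ?_) (sq_nonneg _)
        exact mul_le_mul_of_nonneg_left h2 hZ0
      _ = _ := by ring
  rcases eq_or_lt_of_le hp0 with h0 | h0
  · rw [← h0]
    have : 0 ≤ (Z / 15) ^ 3 := by positivity
    linarith [this, (by norm_num : (0 : ℝ) ^ 2 = 0)]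
  · have h4 : 0 < 15 * p ^ 2 := by positivity
    have h5 : 15 ^ 3 * p ^ 2 * (15 * p ^ 2) ≤ Z ^ 3 * (15 * p ^ 2) := by
      calc 15 ^ 3 * p ^ 2 * (15 * p ^ 2) = (15 * p) ^ 4 := by ring
        _ ≤ _ := h3
    have h6 := le_of_mul_le_mul_right h5 h4
    have h7 : p ^ 2 ≤ (Z / 15) ^ 3 := by
      rw [div_pow Z, le_div_iff₀ (by norm_num)]
      linarith
    exact h7

end Pool.Agent.X179.NB
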