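import Pool.Agent.TH594.HE.Fam
import Pool.Agent.X179.NB.Ineq

/-!
# Spectral form of the Gauss-Bonnet-Chern sum in dimension six
-/

set_option autoImplicit false

namespace Pool.Agent.X179.NB

open Finset Pool.Agent.TH594.HP Pool.Agent.TH594.HE

variable {J : Type*} [Fintype J] [DecidableEq J]

/-- spectral decomposition of a symmetric form on bivectors -/
theorem decompS (T : J → J → J → J → ℝ) (h12 : ∀ i j k l, T j i k l = -T i j k l)
    (h34 : ∀ i j k l, T i j l k = -T i j k l) (hpr : ∀ i j k l, T k l i j = T i j k l) :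
    ∃ (h : Pr J → Matrix J J ℝ) (lam : Pr J → ℝ), (∀ p, Sk (h p)) ∧
      (∀ p q, sp (h p) (h q) = if p = q then 1 else 0) ∧
      (∀ i j k l, ∑ p, h p i j * h p k l =
        (if i = k then 1 else 0) * (if j = l then 1 else 0) -
          (if i = l then 1 else 0) * (if j = k then 1 else 0)) ∧
      (∀ i j k l, T i j k l = ∑ p, lam p * (h p i j * h p k l)) := by
  set M : Matrix (Pr J) (Pr J) ℝ := fun p q => T p.1.1 p.1.2 q.1.1 q.1.2 with hM
  have hH : M.IsHermitian := by
    ext p q
    rw [Matrix.conjTranspose_apply, star_trivial]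
    exact hpr _ _ _ _
  set b := hH.eigenvectorBasis with hb
  set u : Pr J → Pr J → ℝ := fun p q => (b p) q with hu
  have horth : ∀ p q, ∑ r, u p r * u q r = if p = q then 1 else 0 := by
    intro p q
    have h1 := orthonormal_iff_ite.mp b.orthonormal p q
    rw [← h1, PiLp.inner_apply]
    refine Finset.sum_congr rfl fun r _ => ?_
    simp [u, mul_comm]
  set U : Matrix (Pr J) (Pr J) ℝ := fun p q => u p q with hU
  have hUU : U * U.transpose = 1 := by
    ext p q
    rw [Matrix.mul_apply, Matrix.one_apply, ← horth p q]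
    rfl
  have hUU' : U.transpose * U = 1 := mul_eq_one_comm.mp hUU
  have hcomp : ∀ q r, ∑ p, u p q * u p r = if q = r then 1 else 0 := by
    intro q r
    have := congrFun (congrFun hUU' q) r
    rw [Matrix.mul_apply, Matrix.one_apply] at this
    rw [← this]
    rfl
  have heig : ∀ p q, ∑ r, M q r * u p r = hH.eigenvalues p * u p q := by
    intro p q
    have := congrFun (hH.mulVec_eigenvectorBasis p) q
    simpa [Matrix.mulVec, dotProduct, u] using this
  have hMs : ∀ q r, M q r = ∑ p, hH.eigenvalues p * (u p q * u p r) := by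
    intro q r
    have h1 : M q r = ∑ s, M q s * (if s = r then 1 else 0) := by simp
    rw [h1]
    simp only [← hcomp, Finset.mul_sum]
    rw [Finset.sum_comm]
    refine Finset.sum_congr rfl fun p _ => ?_
    have h2 : ∑ s, M q s * (u p s * u p r) = (∑ s, M q s * u p s) * u p r := by
      rw [Finset.sum_mul]
      exact Finset.sum_congr rfl fun s _ => by ring
    rw [h2, heig]; ring
  refine ⟨fun p => ext (u p), hH.eigenvalues, fun p => ext_sk _, ?_, ?_, ?_⟩
  · intro p q
    rw [sp_ext, horth]
  · intro i j k l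
    have := anti4 (fun i j k l => ∑ p, ext (u p) i j * ext (u p) k l -
      ((if i = k then (1 : ℝ) else 0) * (if j = l then 1 else 0) -
          (if i = l then 1 else 0) * (if j = k then 1 else 0))) ?_ ?_ ?_ i j k l
    · linarith
    · intro i j k l
      have e1 : ∑ p, ext (u p) j i * ext (u p) k l = -∑ p, ext (u p) i j * ext (u p) k l := by
        rw [← Finset.sum_neg_distrib]
        exact Finset.sum_congr rfl fun p _ => by rw [ext_sk (u p) i j]; ring
      rw [e1]; ring
    · intro i j k l
      have e1 : ∑ p, ext (u p) i j * ext (u p) l k = -∑ p, ext (u p) i j * ext (u p) k l := by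
        rw [← Finset.sum_neg_distrib]
        exact Finset.sum_congr rfl fun p _ => by rw [ext_sk (u p) k l]; ring
      rw [e1]; ring
    · intro i j k l hij hkl
      have e1 : ∑ p, ext (u p) i j * ext (u p) k l =
          if (⟨(i, j), hij⟩ : Pr J) = ⟨(k, l), hkl⟩ then 1 else 0 := by
        rw [← hcomp]
        exact Finset.sum_congr rfl fun p _ => by rw [ext_lt _ hij, ext_lt _ hkl]
      rw [e1]
      by_cases h1 : i = k
      · by_cases h2 : j = l
        · subst h1 h2
          have h3 : i ≠ j := by
            rintro rfl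
            omega
          simp [h3]
        · have h3 : ¬ (i = l ∧ j = k) := by
            rintro ⟨rfl, rfl⟩
            omega
          have h4 : ¬ (⟨(i, j), hij⟩ : Pr J) = ⟨(k, l), hkl⟩ := by
            intro h
            simp only [Subtype.mk.injEq, Prod.mk.injEq] at h
            exact h2 h.2
          rw [if_neg h4, if_neg h2]
          by_cases h5 : i = l
          · have h6 : j ≠ k := fun h => h3 ⟨h5, h⟩
            rw [if_neg h6]; ring
          · rw [if_neg h5]; ring
      · have h3 : ¬ (i = l ∧ j = k) := by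
          rintro ⟨rfl, rfl⟩
          omega
        have h4 : ¬ (⟨(i, j), hij⟩ : Pr J) = ⟨(k, l), hkl⟩ := by
          intro h
          simp only [Subtype.mk.injEq, Prod.mk.injEq] at h
          exact h1 h.1
        rw [if_neg h4, if_neg h1]
        by_cases h5 : i = l
        · have h6 : j ≠ k := fun h => h3 ⟨h5, h⟩
          rw [if_neg h6]; ring
        · rw [if_neg h5]; ring
  · intro i j k l
    have := anti4 (fun i j k l => T i j k l -
      ∑ p, hH.eigenvalues p * (ext (u p) i j * ext (u p) k l)) ?_ ?_ ?_ i j k l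
    · linarith
    · intro i j k l
      have e1 : ∑ p, hH.eigenvalues p * (ext (u p) j i * ext (u p) k l) =
          -∑ p, hH.eigenvalues p * (ext (u p) i j * ext (u p) k l) := by
        rw [← Finset.sum_neg_distrib]
        exact Finset.sum_congr rfl fun p _ => by rw [ext_sk (u p) i j]; ring
      rw [e1, h12 i j k l]; ring
    · intro i j k l
      have e1 : ∑ p, hH.eigenvalues p * (ext (u p) i j * ext (u p) l k) =
          -∑ p, hH.eigenvalues p * (ext (u p) i j * ext (u p) k l) := by
        rw [← Finset.sum_neg_distrib]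
        exact Finset.sum_congr rfl fun p _ => by rw [ext_sk (u p) k l]; ring
      rw [e1, h34 i j k l]; ring
    · intro i j k l hij hkl
      have e1 := hMs ⟨(i, j), hij⟩ ⟨(k, l), hkl⟩
      rw [sub_eq_zero]
      refine Eq.trans e1 ?_
      exact Finset.sum_congr rfl fun p _ => by rw [ext_lt _ hij, ext_lt _ hkl]

/-- complete orthonormal families of two-forms -/
structure Cpl (h : Pr J → Matrix J J ℝ) : Prop where
  sk : ∀ p, Sk (h p)
  on : ∀ p q, sp (h p) (h q) = if p = q then 1 else 0
  cp : ∀ i j k l, ∑ p, h p i j * h p k l =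
        (if i = k then 1 else 0) * (if j = l then 1 else 0) -
          (if i = l then 1 else 0) * (if j = k then 1 else 0)

variable {h : Pr J → Matrix J J ℝ}

/-- the sum over a complete family of the squares of the products -/
theorem Cpl.sum_nn (H : Cpl h) {d : ℕ} {f : Fk J} (hf : Dg d f) :
    ∑ a, nn (LM (h a) f) =
      2 * (((Fintype.card J : ℝ) - d) * ((Fintype.card J : ℝ) - d - 1)) * nn f := by
  have h0 : ∑ a, nn (LM (h a) f) =
      ∑ i, ∑ j, ∑ k, ∑ l, EE (nu h) i j k l * ip (cr i (cr j f)) (cr k (cr l f)) := by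
    simp only [LM_apply]
    exact sq_expand (nu h) fun i j => cr i (cr j f)
  have hEE : ∀ i j k l, EE (nu h) i j k l = (if i = k then 1 else 0) * (if j = l then 1 else 0) -
          (if i = l then 1 else 0) * (if j = k then 1 else 0) := H.cp
  have h1 : ∀ i j, ∑ k, ∑ l, EE (nu h) i j k l * ip (cr i (cr j f)) (cr k (cr l f)) =
      2 * nn (cr i (cr j f)) := by
    intro i j
    have e1 : ∑ k, ∑ l, ((if i = k then (1 : ℝ) else 0) * (if j = l then 1 else 0)) *
        ip (cr i (cr j f)) (cr k (cr l f)) = nn (cr i (cr j f)) := by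
      rw [Finset.sum_eq_single i]
      · rw [Finset.sum_eq_single j]
        · simp [nn]
        · intro l _ hl
          rw [if_neg (Ne.symm hl)]; ring
        · simp
      · intro k _ hk
        refine Finset.sum_eq_zero fun l _ => ?_
        rw [if_neg (Ne.symm hk)]; ring
      · simp
    have e2 : ∑ k, ∑ l, ((if i = l then (1 : ℝ) else 0) * (if j = k then 1 else 0)) *
        ip (cr i (cr j f)) (cr k (cr l f)) = -nn (cr i (cr j f)) := by
      rw [Finset.sum_eq_single j]
      · rw [Finset.sum_eq_single i]
        · rw [cr_cr j i, ip_neg_right]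
          simp [nn]
        · intro l _ hl
          rw [if_neg (Ne.symm hl)]; ring
        · simp
      · intro k _ hk
        refine Finset.sum_eq_zero fun l _ => ?_
        rw [if_neg (Ne.symm hk)]; ring
      · simp
    simp only [hEE, sub_mul, Finset.sum_sub_distrib]
    rw [e1, e2]
    ring
  rw [h0]
  simp only [h1]
  rw [Finset.sum_comm]
  have h2 : ∀ j, ∑ i, 2 * nn (cr i (cr j f)) =
      2 * (((Fintype.card J : ℝ) - (d + 1)) * nn (cr j f)) := by
    intro j
    rw [← Finset.mul_sum, sum_nn_cr (Dg_cr hf j)]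
    push_cast
    ring
  simp only [h2]
  rw [← Finset.mul_sum, ← Finset.mul_sum, sum_nn_cr hf]
  ring

/-- `|h_a ∧ h_b ∧ h_c|²`, up to a factor -/
noncomputable def pp (h : Pr J → Matrix J J ℝ) (a b c : Pr J) : ℝ :=
  nn (LM (h c) (LM (h b) (LM (h a) (vac : Fk J))))

theorem pp_nonneg (a b c : Pr J) : 0 ≤ pp h a b c := nn_nonneg _

theorem pp_swap1 (a b c : Pr J) : pp h b a c = pp h a b c := by
  unfold pp
  rw [LM_comm (h a) (h b)]

theorem pp_swap2 (a b c : Pr J) : pp h a c b = pp h a b c := by
  unfold pp
  rw [LM_comm (h b) (h c)]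

/-- the partial sums -/
noncomputable def HH (h : Pr J → Matrix J J ℝ) (a b : Pr J) : ℝ := ∑ c, pp h a b c

theorem HH_eq (H : Cpl h) (hJ : Fintype.card J = 6) (a b : Pr J) :
    HH h a b = 64 * ((if a = b then 1 else 0) + 1 + 2 * sp (h b) (h a * h a * h b)) := by
  unfold HH pp
  rw [H.sum_nn (Dg_LM (Dg_LM Dg_vac (h a)) (h b)), nn_four (H.sk b) (H.sk a), hJ, H.on, H.on, H.on]
  push_cast
  have e : sp (h a) (h b * h b * h a) = sp (h b) (h a * h a * h b) := by
    rw [sp_tr (H.sk a), sp_tr (H.sk b)]
    congr 1
    rw [← Matrix.mul_assoc, ← Matrix.mul_assoc, Matrix.trace_mul_comm _ (h a),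
      ← Matrix.mul_assoc, ← Matrix.mul_assoc, Matrix.trace_mul_comm (h b) (h a * h a * h b)]
  rw [e]
  by_cases hab : a = b
  · subst hab
    simp
    ring
  · rw [if_neg hab, if_neg (Ne.symm hab)]
    simp
    ring

end Pool.Agent.X179.NB
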