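import Pool.Agent.X179.NB.Core
import Pool.Agent.TH594.HP.Field

/-!
# The Gauss-Bonnet-Chern integrand in dimension six: sharp norm bound and sign
-/

set_option autoImplicit false

namespace Pool.Agent.X179.NB

open Finset Pool.Agent.TH594.HP Pool.Agent.TH594.HE
open Pool.Agent.W666.GB (AlgCurv gbc scal roundGB unitCurv sn)
open Pool.Agent.W669.HD (T4 gm cp)

/-- squared norm of the curvature tensor, the sum of the squares of its components -/
noncomputable def curvSq {m : ℕ} {V : Type*} [NormedAddCommGroup V] [InnerProductSpace ℝ V]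
    (e : OrthonormalBasis (Fin m × Bool) ℝ V) (R : V → V → V → V → ℝ) : ℝ :=
  ∑ i, ∑ j, ∑ k, ∑ l, R (e i) (e j) (e k) (e l) ^ 2

/-- squared norm of the Ricci tensor -/
noncomputable def ricSq {m : ℕ} {V : Type*} [NormedAddCommGroup V] [InnerProductSpace ℝ V]
    (e : OrthonormalBasis (Fin m × Bool) ℝ V) (R : V → V → V → V → ℝ) : ℝ :=
  ∑ j, ∑ l, (∑ i, R (e i) (e j) (e i) (e l)) ^ 2

theorem nn_LLL {J : Type*} [Fintype J] [DecidableEq J] (h : Pr J → Matrix J J ℝ) (a b c : Pr J) :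
    nn (L (nu h c) (L (nu h b) (L (nu h a) vac))) = pp h a b c := rfl

theorem gm_G3 {h : Pr (Fin 3 × Bool) → Matrix (Fin 3 × Bool) (Fin 3 × Bool) ℝ}
    {s : Pr (Fin 3 × Bool) → ℝ} {C : T4 3}
    (hC : ∀ i j k l, C i j k l = ∑ p, s p * (h p i j * h p k l)) :
    gm (fun _ : Fin 3 => C) = G3 h s := by
  rw [gm_op s (nu h) C hC, pow_succ, pow_two, Module.End.mul_apply, Module.End.mul_apply,
    Op_apply]
  unfold G3
  refine Finset.sum_congr rfl fun a _ => ?_
  rw [Op_apply, Finset.mul_sum]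
  refine Finset.sum_congr rfl fun b _ => ?_
  rw [Op_apply, Finset.mul_sum, Finset.mul_sum]
  refine Finset.sum_congr rfl fun c _ => ?_
  rw [nn_LLL]
  ring

theorem card6 : Fintype.card (Fin 3 × Bool) = 6 := by decide

variable {V : Type*} [NormedAddCommGroup V] [InnerProductSpace ℝ V]
  {R : V → V → V → V → ℝ}

theorem gbc_gm {m : ℕ} (e : OrthonormalBasis (Fin m × Bool) ℝ V) (R : V → V → V → V → ℝ) :
    gbc e R = 1 / ((8 * Real.pi) ^ m * m.factorial) * gm (fun _ : Fin m => cp e R) := by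
  unfold gbc gm cp
  simp only [Pool.Agent.W669.HD.sn_def]

theorem spectral (e : OrthonormalBasis (Fin 3 × Bool) ℝ V) (hR : AlgCurv R) :
    ∃ (h : Pr (Fin 3 × Bool) → Matrix (Fin 3 × Bool) (Fin 3 × Bool) ℝ)
      (s : Pr (Fin 3 × Bool) → ℝ), Cpl h ∧
      gbc e R = 1 / (3072 * Real.pi ^ 3) * G3 h s ∧ scal e R = 2 * ∑ a, s a ∧
      curvSq e R = 4 * ∑ a, s a ^ 2 ∧ ricSq e R = rr h s ∧
      ∀ i j k l, cp e R i j k l = ∑ p, s p * (h p i j * h p k l) := by
  obtain ⟨h, s, hsk, hon, hcp, hT⟩ := decompS (cp e R)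
    (fun i j k l => by unfold cp; rw [hR.anti])
    (fun i j k l => by unfold cp; rw [hR.a34])
    (fun i j k l => by unfold cp; rw [hR.pair])
  have H : Cpl h := ⟨hsk, hon, hcp⟩
  have hsum : ∀ a b, ∑ i, ∑ j, h a i j * h b i j = 2 * (if a = b then (1 : ℝ) else 0) := by
    intro a b
    have := hon a b
    unfold sp at this
    rw [← this]
    ring
  refine ⟨h, s, H, ?_, ?_, ?_, ?_, hT⟩
  · rw [gbc_gm, gm_G3 hT]
    congr 2
    norm_num [Nat.factorial]
    ring
  · have h1 : ∀ i j, R (e i) (e j) (e i) (e j) = ∑ a, s a * (h a i j * h a i j) :=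
      fun i j => hT i j i j
    unfold scal
    simp only [h1]
    have e1 : ∑ i, ∑ j, ∑ a, s a * (h a i j * h a i j) =
        ∑ a, s a * ∑ i, ∑ j, h a i j * h a i j := by
      simp only [Finset.mul_sum]
      rw [Finset.sum_comm]
      rw [Finset.sum_congr rfl fun j _ => Finset.sum_comm (s := univ) (t := univ)
        (f := fun i a => s a * (h a i j * h a i j))]
      rw [Finset.sum_comm]
      exact Finset.sum_congr rfl fun a _ => Finset.sum_comm
    rw [e1]
    simp only [hsum, if_true]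
    rw [Finset.mul_sum]
    exact Finset.sum_congr rfl fun a _ => by ring
  · have h1 : ∀ i j k l, R (e i) (e j) (e k) (e l) ^ 2 =
        ∑ a, ∑ b, s a * s b * ((h a i j * h b i j) * (h a k l * h b k l)) := by
      intro i j k l
      have h2 : R (e i) (e j) (e k) (e l) = ∑ a, s a * (h a i j * h a k l) := hT i j k l
      rw [h2, sq, Finset.sum_mul_sum]
      exact Finset.sum_congr rfl fun a _ => Finset.sum_congr rfl fun b _ => by ring
    unfold curvSq
    simp only [h1]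
    have e1 : ∀ F : Fin 3 × Bool → Fin 3 × Bool → Fin 3 × Bool → Fin 3 × Bool →
        Pr (Fin 3 × Bool) → Pr (Fin 3 × Bool) → ℝ,
        ∑ i, ∑ j, ∑ k, ∑ l, ∑ a, ∑ b, F i j k l a b =
          ∑ a, ∑ b, ∑ i, ∑ j, ∑ k, ∑ l, F i j k l a b := by
      intro F
      have g1 : ∑ i, ∑ j, ∑ k, ∑ l, ∑ a, ∑ b, F i j k l a b =
          ∑ x : ((Fin 3 × Bool) × (Fin 3 × Bool)) × ((Fin 3 × Bool) × (Fin 3 × Bool)),
            ∑ y : Pr (Fin 3 × Bool) × Pr (Fin 3 × Bool),
              F x.1.1 x.1.2 x.2.1 x.2.2 y.1 y.2 := by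
        simp only [Fintype.sum_prod_type]
      have g2 : ∑ a, ∑ b, ∑ i, ∑ j, ∑ k, ∑ l, F i j k l a b =
          ∑ y : Pr (Fin 3 × Bool) × Pr (Fin 3 × Bool),
          ∑ x : ((Fin 3 × Bool) × (Fin 3 × Bool)) × ((Fin 3 × Bool) × (Fin 3 × Bool)),
              F x.1.1 x.1.2 x.2.1 x.2.2 y.1 y.2 := by
        simp only [Fintype.sum_prod_type]
      rw [g1, g2, Finset.sum_comm]
    rw [e1, Finset.mul_sum]
    refine Finset.sum_congr rfl fun a _ => ?_
    have e2 : ∀ b, ∑ i, ∑ j, ∑ k, ∑ l, s a * s b * ((h a i j * h b i j) * (h a k l * h b k l)) =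
        s a * s b * ((2 * (if a = b then (1 : ℝ) else 0)) *
          (2 * (if a = b then (1 : ℝ) else 0))) := by
      intro b
      rw [← hsum a b]
      simp only [← Finset.mul_sum, Finset.sum_mul]
    simp only [e2]
    rw [Finset.sum_eq_single a]
    · rw [if_pos rfl]; ring
    · intro b _ hb
      rw [if_neg (Ne.symm hb)]; ring
    · simp
  · unfold ricSq rr
    refine Finset.sum_congr rfl fun j _ => Finset.sum_congr rfl fun l _ => ?_
    have h1 : ∑ i, R (e i) (e j) (e i) (e l) = -MM h s j l := by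
      have h2 : ∀ i, R (e i) (e j) (e i) (e l) = ∑ a, s a * (h a i j * h a i l) :=
        fun i => hT i j i l
      simp only [h2]
      rw [Finset.sum_comm]
      unfold MM
      rw [Matrix.sum_apply, ← Finset.sum_neg_distrib]
      refine Finset.sum_congr rfl fun a _ => ?_
      rw [Matrix.smul_apply, Matrix.mul_apply, smul_eq_mul, Finset.mul_sum,
        ← Finset.sum_neg_distrib]
      refine Finset.sum_congr rfl fun i _ => ?_
      rw [hsk a j i]
      ring
    rw [h1, neg_sq]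

theorem roundGB3 : roundGB 3 1 = 15 / (8 * Real.pi ^ 3) := by
  unfold roundGB
  have : ((2 * 3).factorial : ℝ) = 720 := by norm_num [Nat.factorial]
  rw [this]
  have h3 : ((Nat.factorial 3 : ℕ) : ℝ) = 6 := by norm_num [Nat.factorial]
  rw [h3]
  have hπ := Real.pi_ne_zero
  field_simp
  ring

/-- **the sharp norm bound** -/
theorem norm_bound (e : OrthonormalBasis (Fin 3 × Bool) ℝ V) (hR : AlgCurv R) :
    gbc e R ^ 2 ≤ roundGB 3 1 ^ 2 * (curvSq e R / 60) ^ 3 := by
  obtain ⟨h, s, H, h1, -, h3, -, -⟩ := spectral e hR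
  have h4 := G3_sq H card6 s
  have hπ := Real.pi_pos
  rw [h1, h3, roundGB3, mul_pow]
  have e1 : (4 * ∑ a, s a ^ 2) / 60 = (∑ a, s a ^ 2) / 15 := by ring
  rw [e1]
  calc (1 / (3072 * Real.pi ^ 3)) ^ 2 * G3 h s ^ 2
      ≤ (1 / (3072 * Real.pi ^ 3)) ^ 2 * (5760 ^ 2 * ((∑ a, s a ^ 2) / 15) ^ 3) :=
        mul_le_mul_of_nonneg_left h4 (sq_nonneg _)
    _ = _ := by
      field_simp
      ring

/-- **the sign inequality** -/
theorem sign_bound (e : OrthonormalBasis (Fin 3 × Bool) ℝ V) (hR : AlgCurv R) :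
    1 / (256 * Real.pi ^ 3) * (curvSq e R *
      (scal e R ^ 2 - 2 * curvSq e R - 4 * ricSq e R)) ≤ scal e R * gbc e R := by
  obtain ⟨h, s, H, h1, h2, h3, h4, -⟩ := spectral e hR
  have h5 := sign_core H card6 s
  have hπ := Real.pi_pos
  rw [h1, h2, h3, h4]
  calc 1 / (256 * Real.pi ^ 3) * ((4 * ∑ a, s a ^ 2) *
        ((2 * ∑ a, s a) ^ 2 - 2 * (4 * ∑ a, s a ^ 2) - 4 * rr h s))
      = 1 / (3072 * Real.pi ^ 3) * (12 * (4 * ∑ a, s a ^ 2) *
        ((2 * ∑ a, s a) ^ 2 - 2 * (4 * ∑ a, s a ^ 2) - 4 * rr h s)) := by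
        field_simp
        ring
    _ ≤ 1 / (3072 * Real.pi ^ 3) * ((2 * ∑ a, s a) * G3 h s) :=
        mul_le_mul_of_nonneg_left h5 (by positivity)
    _ = _ := by ring

end Pool.Agent.X179.NB
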