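import Pool.Agent.X179.NB.Point
import Pool.Agent.X179.EP.Trans

/-!
# Sharpness of the norm bound and of the pinching constant
-/

set_option autoImplicit false

namespace Pool.Agent.X179.NB

open Finset Pool.Agent.TH594.HP Pool.Agent.TH594.HE
open Pool.Agent.W666.GB (AlgCurv gbc scal roundGB unitCurv sn)
open Pool.Agent.W669.HD (T4 gm cp unitT cp_unit unit_curv)
open Pool.Agent.X179.EP

variable {V : Type} [NormedAddCommGroup V] [InnerProductSpace ℝ V]
  {R : V → V → V → V → ℝ}

/-- adding a multiple of the unit tensor -/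
noncomputable def shiftT (R : V → V → V → V → ℝ) (c : ℝ) : V → V → V → V → ℝ :=
  fun x y z w => R x y z w + c * unitT x y z w

theorem shift_curv (hR : AlgCurv R) (c : ℝ) : AlgCurv (shiftT R c) :=
  Pool.Agent.W669.HD.add_curv hR (unit_curv c)

theorem gbc_shift (e : OrthonormalBasis (Fin 3 × Bool) ℝ V) (hR : AlgCurv R) (c : ℝ) :
    gbc e (shiftT R c) = gbc e R +
      c / (64 * Real.pi ^ 3) * (scal e R ^ 2 + curvSq e R - 4 * ricSq e R) +
      3 * c ^ 2 / (16 * Real.pi ^ 3) * scal e R + 15 * c ^ 3 / (8 * Real.pi ^ 3) := by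
  obtain ⟨h, s, H, h1, h2, h3, h4, hT⟩ := spectral e hR
  have hT' : ∀ i j k l, cp e (shiftT R c) i j k l =
      ∑ p, (s p - (-c)) * (h p i j * h p k l) := by
    intro i j k l
    have e1 : ∑ p, (s p - (-c)) * (h p i j * h p k l) =
        ∑ p, s p * (h p i j * h p k l) + c * ∑ p, h p i j * h p k l := by
      rw [Finset.mul_sum, ← Finset.sum_add_distrib]
      exact Finset.sum_congr rfl fun p _ => by ring
    rw [e1, ← hT, H.cp]
    have : cp e (shiftT R c) i j k l = cp e R i j k l + c * unitT (e i) (e j) (e k) (e l) := rfl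
    rw [this, cp_unit]
    rfl
  have h5 : gbc e (shiftT R c) = 1 / (3072 * Real.pi ^ 3) * G3 h (fun a => s a - (-c)) := by
    rw [gbc_gm, gm_G3 hT']
    congr 2
    norm_num [Nat.factorial]
    ring
  rw [h5, G3_shift H card6, G2_eq H card6, h1, h2, h3, h4]
  have hπ := Real.pi_ne_zero
  field_simp
  ring

/-- the signs -/
def eps (b : Bool) : ℝ := if b then -1 else 1

/-- The reflection with respect to the span of the basis vectors `e (i, false)`. -/
noncomputable def theta (e : OrthonormalBasis (Fin 3 × Bool) ℝ V) : V →ₗ[ℝ] V :=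
  car e fun i => eps i.2 • e i

theorem theta_e (e : OrthonormalBasis (Fin 3 × Bool) ℝ V) (i : Fin 3 × Bool) :
    theta e (e i) = eps i.2 • e i := car_e e _ i

theorem inner_e' (e : OrthonormalBasis (Fin 3 × Bool) ℝ V) (i j : Fin 3 × Bool) :
    inner ℝ (e i) (e j) = if i = j then (1 : ℝ) else 0 :=
  orthonormal_iff_ite.1 e.orthonormal i j

theorem theta_symm (e : OrthonormalBasis (Fin 3 × Bool) ℝ V) (x y : V) :
    inner ℝ (theta e x) y = inner ℝ x (theta e y) := by
  let f : LinearMap.BilinForm ℝ V := (innerₗ V).compl₁₂ (theta e) LinearMap.id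
  let g : LinearMap.BilinForm ℝ V := (innerₗ V).compl₁₂ LinearMap.id (theta e)
  have hfg : f = g := by
    refine LinearMap.BilinForm.ext_basis e.toBasis fun i j => ?_
    simp only [f, g, e.coe_toBasis, LinearMap.compl₁₂_apply, LinearMap.id_apply, theta_e,
      innerₗ_apply_apply, inner_smul_left, inner_smul_right, inner_e', conj_trivial]
    by_cases hij : i = j
    · subst hij; rfl
    · simp [hij]
  exact congrArg (fun F : LinearMap.BilinForm ℝ V => F x y) hfg

/-- The tensor `θ ∧ θ`, `θ` the reflection. -/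
noncomputable def GG (e : OrthonormalBasis (Fin 3 × Bool) ℝ V) (x y z w : V) : ℝ :=
  unitT (theta e x) (theta e y) z w

theorem theta_comm (e : OrthonormalBasis (Fin 3 × Bool) ℝ V) (x y : V) :
    inner ℝ (theta e x) y = inner ℝ (theta e y) x := by
  rw [theta_symm, real_inner_comm]

theorem GG_curv (e : OrthonormalBasis (Fin 3 × Bool) ℝ V) : AlgCurv (GG e) where
  add x x' y z w := by simp only [GG, unitT, map_add, inner_add_left]; ring
  smul t x y z w := by simp only [GG, unitT, map_smul, inner_smul_left, conj_trivial]; ring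
  anti x y z w := by simp only [GG, unitT]; ring
  pair x y z w := by
    simp only [GG, unitT]
    rw [theta_comm e z x, theta_comm e w y, theta_comm e z y, theta_comm e w x]
    ring
  bianchi x y z w := by
    simp only [GG, unitT]
    rw [theta_comm e x z, theta_comm e y z, theta_comm e y x]
    ring

theorem scale_curv (hR : AlgCurv R) (t : ℝ) : AlgCurv (fun x y z w => t * R x y z w) where
  add x x' y z w := by rw [hR.add]; ring
  smul s x y z w := by rw [hR.smul]; ring
  anti x y z w := by rw [hR.anti]; ring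
  pair x y z w := by rw [hR.pair]
  bianchi x y z w := by
    have := hR.bianchi x y z w
    calc t * R x y z w + t * R y z x w + t * R z x y w =
        t * (R x y z w + R y z x w + R z x y w) := by ring
      _ = 0 := by rw [this, mul_zero]

theorem gbc_scale {m : ℕ} (e : OrthonormalBasis (Fin m × Bool) ℝ V) (t : ℝ) :
    gbc e (fun x y z w => t * R x y z w) = t ^ m * gbc e R := by
  rw [gbc_eq_gbf, gbc_eq_gbf, mul_left_comm]
  congr 1
  unfold gbf
  rw [Finset.mul_sum]
  refine Finset.sum_congr rfl fun σ _ => ?_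
  rw [Finset.mul_sum]
  refine Finset.sum_congr rfl fun τ _ => ?_
  rw [Finset.prod_mul_distrib, Finset.prod_const, Finset.card_univ, Fintype.card_fin]
  ring

theorem zero_curv : AlgCurv (fun _ _ _ _ : V => (0 : ℝ)) :=
    ⟨fun _ _ _ _ _ => by simp, fun _ _ _ _ _ => by simp, fun _ _ _ _ => by simp,
      fun _ _ _ _ => by simp, fun _ _ _ _ => by simp⟩

/-- constant curvature -/
theorem gbc_unit (e : OrthonormalBasis (Fin 3 × Bool) ℝ V) (c : ℝ) :
    gbc e (fun x y z w => c * unitT x y z w) = 15 * c ^ 3 / (8 * Real.pi ^ 3) := by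
  have h := gbc_shift e (zero_curv (V := V)) c
  have h0 : gbc e (fun _ _ _ _ : V => (0 : ℝ)) = 0 := by
    have := gbc_scale (R := fun _ _ _ _ : V => (0 : ℝ)) e 0
    simpa using this
  have h1 : scal e (fun _ _ _ _ : V => (0 : ℝ)) = 0 := by simp [scal]
  have h2 : curvSq e (fun _ _ _ _ : V => (0 : ℝ)) = 0 := by simp [curvSq]
  have h3 : ricSq e (fun _ _ _ _ : V => (0 : ℝ)) = 0 := by simp [ricSq]
  rw [h0, h1, h2, h3] at h
  have h4 : shiftT (fun _ _ _ _ : V => (0 : ℝ)) c = fun x y z w => c * unitT x y z w := by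
    funext x y z w
    simp [shiftT]
  rw [h4] at h
  rw [h]
  ring

theorem det_theta (e : OrthonormalBasis (Fin 3 × Bool) ℝ V) :
    e.toBasis.det (theta e ∘ e) = -1 := by
  have h1 : (theta e ∘ e) = fun i => eps i.2 • e i := by
    funext i
    exact theta_e e i
  rw [h1, AlternatingMap.map_smul_univ]
  have h3 : e.toBasis.det (⇑e) = 1 := by
    rw [← e.coe_toBasis]
    exact e.toBasis.det_self
  rw [h3]
  simp [Fintype.prod_prod_type, eps]
  norm_num

theorem gbc_GG (e : OrthonormalBasis (Fin 3 × Bool) ℝ V) :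
    gbc e (GG e) = -15 / (8 * Real.pi ^ 3) := by
  have h0 : gbc e (fun x y z w => 1 * unitT x y z w) = 15 * 1 ^ 3 / (8 * Real.pi ^ 3) :=
    gbc_unit e 1
  have hU := unit_curv (V := V) 1
  rw [gbc_eq_gbf] at h0 ⊢
  have h1 : gbf (GG e) (⇑e) (⇑e) = gbf (fun x y z w : V => 1 * unitT x y z w) (theta e ∘ e) e := by
    unfold gbf GG
    simp only [one_mul, Function.comp_apply]
  rw [h1, gbf_left hU e.toBasis, det_theta]
  have h3 : (⇑e.toBasis : Fin 3 × Bool → V) = ⇑e := e.coe_toBasis
  rw [h3, mul_left_comm, h0]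
  ring

/-- components of `θ ∧ θ` -/
theorem GG_e (e : OrthonormalBasis (Fin 3 × Bool) ℝ V) (i j k l : Fin 3 × Bool) :
    GG e (e i) (e j) (e k) (e l) = eps i.2 * eps j.2 * unitCurv i j k l := by
  rw [← cp_unit e]
  simp only [GG, unitT, theta_e, inner_smul_left, conj_trivial]
  ring

/-- the family -/
noncomputable def RR (e : OrthonormalBasis (Fin 3 × Bool) ℝ V) (c : ℝ) (x y z w : V) : ℝ :=
  1 / 2 * GG e x y z w + c * unitT x y z w

theorem RR_curv (e : OrthonormalBasis (Fin 3 × Bool) ℝ V) (c : ℝ) : AlgCurv (RR e c) :=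
  shift_curv (scale_curv (GG_curv e) (1 / 2)) c

theorem RR_e (e : OrthonormalBasis (Fin 3 × Bool) ℝ V) (c : ℝ) (i j k l : Fin 3 × Bool) :
    RR e c (e i) (e j) (e k) (e l) = (1 / 2 * (eps i.2 * eps j.2) + c) * unitCurv i j k l := by
  unfold RR
  rw [GG_e, cp_unit]
  ring

theorem sum_unit_sq (i j : Fin 3 × Bool) :
    ∑ k, ∑ l, (unitCurv i j k l : ℝ) ^ 2 = 2 - 2 * (if i = j then 1 else 0) := by
  have h1 : ∀ k l : Fin 3 × Bool, (unitCurv i j k l : ℝ) ^ 2 =
      (if i = k then (if j = l then (1 : ℝ) else 0) else 0) +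
      (if j = k then (if i = l then (1 : ℝ) else 0) else 0) -
      2 * (if i = k then (if j = l then (if i = j then (1 : ℝ) else 0) else 0) else 0) := by
    intro k l
    unfold unitCurv
    by_cases h1 : i = k
    · subst h1
      by_cases h2 : j = l
      · subst h2
        by_cases h3 : i = j
        · subst h3; norm_num
        · simp [h3, Ne.symm h3]
      · by_cases h3 : i = l
        · subst h3
          by_cases h4 : j = i
          · exact absurd h4 h2
          · simp [h2]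
        · by_cases h4 : j = i
          · subst h4; simp [h2]
          · simp [h2, h3, h4]
    · by_cases h2 : i = l
      · subst h2
        by_cases h3 : j = k
        · subst h3; simp [h1]
        · simp [h1, h3]
      · simp [h1, h2]
  simp only [h1, Finset.sum_add_distrib, Finset.sum_sub_distrib, ← Finset.mul_sum,
    Finset.sum_ite_irrel, Finset.sum_const_zero, Finset.sum_ite_eq, Finset.mem_univ, if_true]
  norm_num

theorem eps_sq (b : Bool) : eps b * eps b = 1 := by
  cases b <;> norm_num [eps]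

theorem curvSq_RR (e : OrthonormalBasis (Fin 3 × Bool) ℝ V) (c : ℝ) :
    curvSq e (RR e c) = 60 * c ^ 2 - 12 * c + 15 := by
  unfold curvSq
  simp only [RR_e, mul_pow, ← Finset.mul_sum, sum_unit_sq]
  simp [Fintype.sum_prod_type, eps, Fin.sum_univ_three]
  ring

theorem RR_ein (e : OrthonormalBasis (Fin 3 × Bool) ℝ V) (c : ℝ) (v w : V) :
    ∑ i, RR e c (e i) v (e i) w = 5 * (c - 1 / 10) * inner ℝ v w := by
  have h1 : ∀ i, RR e c (e i) v (e i) w = 1 / 2 * (eps i.2 * inner ℝ (theta e v) w -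
      eps i.2 * (inner ℝ (e i) w * inner ℝ (theta e v) (e i))) +
      c * (inner ℝ v w - inner ℝ (e i) w * inner ℝ v (e i)) := by
    intro i
    simp only [RR, GG, unitT, theta_e, inner_smul_left, conj_trivial, inner_e', if_true]
    ring
  have h2 : ∀ i, inner ℝ (theta e v) (e i) = eps i.2 * inner ℝ v (e i) := by
    intro i
    rw [theta_symm, theta_e, inner_smul_right]
  simp only [h1, h2, Finset.sum_add_distrib, ← Finset.mul_sum, Finset.sum_sub_distrib]
  have h3 : ∑ i, inner ℝ (e i) w * inner ℝ v (e i) = inner ℝ v w := by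
    rw [← e.sum_inner_mul_inner v w]
    exact Finset.sum_congr rfl fun i _ => by ring
  have h4 : ∑ i : Fin 3 × Bool, eps i.2 * inner ℝ (theta e v) w = 0 := by
    rw [← Finset.sum_mul]
    simp [Fintype.sum_prod_type, eps]
  have h5 : ∑ i, eps i.2 * (inner ℝ (e i) w * (eps i.2 * inner ℝ v (e i))) = inner ℝ v w := by
    rw [← h3]
    refine Finset.sum_congr rfl fun i _ => ?_
    calc eps i.2 * (inner ℝ (e i) w * (eps i.2 * inner ℝ v (e i))) =
        (eps i.2 * eps i.2) * (inner ℝ (e i) w * inner ℝ v (e i)) := by ring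
      _ = _ := by rw [eps_sq, one_mul]
  rw [h3, h4, h5]
  simp
  ring

theorem ricSq_of_ein {m : ℕ} {e : OrthonormalBasis (Fin m × Bool) ℝ V} {κ : ℝ}
    (h : ∀ v w : V, ∑ i, R (e i) v (e i) w = κ * inner ℝ v w) :
    ricSq e R = 2 * m * κ ^ 2 := by
  unfold ricSq
  simp only [h]
  have h1 : ∀ i j, (inner ℝ (e i) (e j) : ℝ) = if i = j then 1 else 0 :=
    orthonormal_iff_ite.1 e.orthonormal
  have h2 : ∀ j l : Fin m × Bool, (κ * (if j = l then (1 : ℝ) else 0)) ^ 2 =
      if j = l then κ ^ 2 else 0 := by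
    intro j l
    by_cases hjl : j = l
    · simp [hjl]
    · simp [hjl]
  simp only [h1, h2, Finset.sum_ite_eq, Finset.mem_univ, if_true, Finset.sum_const,
    Finset.card_univ, Fintype.card_prod, Fintype.card_fin, Fintype.card_bool, nsmul_eq_mul]
  push_cast
  ring

theorem scal_of_ein {m : ℕ} {e : OrthonormalBasis (Fin m × Bool) ℝ V} {κ : ℝ}
    (h : ∀ v w : V, ∑ i, R (e i) v (e i) w = κ * inner ℝ v w) :
    scal e R = 2 * m * κ := by
  unfold scal
  rw [Finset.sum_comm]
  simp only [h]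
  have h1 : ∀ i, (inner ℝ (e i) (e i) : ℝ) = 1 := by
    intro i
    rw [real_inner_self_eq_norm_sq, e.norm_eq_one, one_pow]
  simp only [h1, Finset.sum_const, Finset.card_univ, Fintype.card_prod, Fintype.card_fin,
    Fintype.card_bool, nsmul_eq_mul]
  push_cast
  ring

theorem gbc_RR (e : OrthonormalBasis (Fin 3 × Bool) ℝ V) (c : ℝ) :
    gbc e (RR e c) = 3 * (2 * c - 1) * (20 * c ^ 2 + 4 * c + 5) / (64 * Real.pi ^ 3) := by
  have h0 : RR e 0 = fun x y z w => 1 / 2 * GG e x y z w := by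
    funext x y z w
    simp [RR]
  have h1 := gbc_shift e (RR_curv e 0) c
  have h2 : shiftT (RR e 0) c = RR e c := by
    funext x y z w
    simp [RR, shiftT]
  rw [h2, curvSq_RR, ricSq_of_ein (RR_ein e 0), scal_of_ein (RR_ein e 0)] at h1
  have h3 : gbc e (RR e 0) = -15 / (64 * Real.pi ^ 3) := by
    rw [h0, gbc_scale, gbc_GG]
    ring
  rw [h1, h3]
  have hπ := Real.pi_ne_zero
  field_simp
  ring

theorem theta_iso (e : OrthonormalBasis (Fin 3 × Bool) ℝ V) (x y : V) :
    inner ℝ (theta e x) (theta e y) = inner ℝ x y := by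
  let f : LinearMap.BilinForm ℝ V := (innerₗ V).compl₁₂ (theta e) (theta e)
  let g : LinearMap.BilinForm ℝ V := innerₗ V
  have hfg : f = g := by
    refine LinearMap.BilinForm.ext_basis e.toBasis fun i j => ?_
    simp only [f, g, e.coe_toBasis, LinearMap.compl₁₂_apply, theta_e,
      innerₗ_apply_apply, inner_smul_left, inner_smul_right, inner_e', conj_trivial]
    by_cases hij : i = j
    · subst hij
      rw [if_pos rfl, mul_one, eps_sq]
    · simp [hij]
  exact congrArg (fun F : LinearMap.BilinForm ℝ V => F x y) hfg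

theorem GG_nonneg (e : OrthonormalBasis (Fin 3 × Bool) ℝ V) (x y : V) :
    0 ≤ GG e x y x y + unitT x y x y := by
  have h1 := real_inner_mul_inner_self_le (x + theta e x) (y + theta e y)
  have h2 := real_inner_mul_inner_self_le (x - theta e x) (y - theta e y)
  have h3 : ∀ a b, inner ℝ (theta e (theta e a)) b = inner ℝ a b := by
    intro a b
    rw [theta_symm, theta_iso]
  simp only [inner_add_left, inner_add_right, inner_sub_left, inner_sub_right,
    ← theta_symm, h3] at h1 h2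
  unfold GG unitT
  rw [theta_comm e y x, real_inner_comm x y]
  nlinarith

/-- **the pinching constant cannot be raised** -/
theorem sharp_ein (e : OrthonormalBasis (Fin 3 × Bool) ℝ V) {δ : ℝ} (hδ : 0 < δ) :
    ∃ (R : V → V → V → V → ℝ) (κ : ℝ), AlgCurv R ∧ κ < 0 ∧
      (∀ v w : V, ∑ i, R (e i) v (e i) w = 5 * κ * inner ℝ v w) ∧
      curvSq e R < (150 + δ) * κ ^ 2 ∧ 0 < gbc e R := by
  obtain ⟨η, h1, h2, h3⟩ : ∃ η : ℝ, 0 < η ∧ η ≤ 1 / 10 ∧ 800 * η ≤ δ :=
    ⟨min (1 / 10) (δ / 800), lt_min (by norm_num) (by positivity), min_le_left _ _, by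
      have := min_le_right (1 / 10) (δ / 800)
      linarith⟩
  refine ⟨fun x y z w => -1 * RR e (1 / 2 - η) x y z w, -(2 / 5 - η), scale_curv (RR_curv e _) _,
    by linarith, fun v w => ?_, ?_, ?_⟩
  · rw [← Finset.mul_sum, RR_ein]
    ring
  · have e1 : curvSq e (fun x y z w => -1 * RR e (1 / 2 - η) x y z w) =
        curvSq e (RR e (1 / 2 - η)) := by
      unfold curvSq
      simp only [neg_one_mul, neg_sq]
    rw [e1, curvSq_RR]
    nlinarith [mul_pos h1 h1, mul_nonneg (mul_nonneg h1.le h1.le) hδ.le,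
      mul_nonneg (sub_nonneg.2 h2) hδ.le, mul_nonneg h1.le (sub_nonneg.2 h2),
      mul_nonneg (mul_nonneg (sub_nonneg.2 h2) (sub_nonneg.2 h2)) hδ.le]
  · rw [gbc_scale, gbc_RR]
    have hπ := Real.pi_pos
    have e1 : (-1) ^ 3 * (3 * (2 * (1 / 2 - η) - 1) * (20 * (1 / 2 - η) ^ 2 +
        4 * (1 / 2 - η) + 5) / (64 * Real.pi ^ 3)) =
        6 * η * (20 * (1 / 2 - η) ^ 2 + 4 * (1 / 2 - η) + 5) / (64 * Real.pi ^ 3) := by ring
    rw [e1]
    have e2 : 0 < 20 * (1 / 2 - η) ^ 2 + 4 * (1 / 2 - η) + 5 := by nlinarith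
    positivity

/-- the product of two hyperbolic three-spaces -/
theorem equality_case (e : OrthonormalBasis (Fin 3 × Bool) ℝ V) :
    ∃ R : V → V → V → V → ℝ, AlgCurv R ∧ (∀ x y, R x y x y ≤ 0) ∧
      (∀ v w : V, ∑ i, R (e i) v (e i) w = 5 * (-1) * inner ℝ v w) ∧
      curvSq e R = 150 ∧ gbc e R = 0 := by
  refine ⟨fun x y z w => -(5 / 2) * RR e (1 / 2) x y z w, scale_curv (RR_curv e _) _,
    fun x y => ?_, fun v w => ?_, ?_, ?_⟩
  · have h1 := GG_nonneg e x y
    have h2 : -(5 / 2) * RR e (1 / 2) x y x y = -(5 / 4) * (GG e x y x y + unitT x y x y) := by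
      unfold RR
      ring
    show -(5 / 2) * RR e (1 / 2) x y x y ≤ 0
    rw [h2]
    nlinarith
  · rw [← Finset.mul_sum, RR_ein]
    ring
  · have e1 : curvSq e (fun x y z w => -(5 / 2) * RR e (1 / 2) x y z w) =
        (5 / 2) ^ 2 * curvSq e (RR e (1 / 2)) := by
      unfold curvSq
      simp only [Finset.mul_sum]
      exact Finset.sum_congr rfl fun i _ => Finset.sum_congr rfl fun j _ =>
        Finset.sum_congr rfl fun k _ => Finset.sum_congr rfl fun l _ => by ring
    rw [e1, curvSq_RR]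
    ring
  · rw [gbc_scale, gbc_RR]
    ring

theorem curvSq_unit (e : OrthonormalBasis (Fin 3 × Bool) ℝ V) (c : ℝ) :
    curvSq e (fun x y z w => c * unitT x y z w) = 60 * c ^ 2 := by
  unfold curvSq
  simp only [cp_unit, mul_pow, ← Finset.mul_sum, sum_unit_sq]
  simp
  ring

theorem norm_eq (e : OrthonormalBasis (Fin 3 × Bool) ℝ V) (c : ℝ) :
    gbc e (fun x y z w => c * unitT x y z w) ^ 2 =
      roundGB 3 1 ^ 2 * (curvSq e (fun x y z w => c * unitT x y z w) / 60) ^ 3 := by
  rw [gbc_unit, curvSq_unit, roundGB3]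
  have hπ := Real.pi_ne_zero
  field_simp

theorem curvSq_nonneg {m : ℕ} (e : OrthonormalBasis (Fin m × Bool) ℝ V)
    (R : V → V → V → V → ℝ) : 0 ≤ curvSq e R :=
  Finset.sum_nonneg fun _ _ => Finset.sum_nonneg fun _ _ => Finset.sum_nonneg fun _ _ =>
    Finset.sum_nonneg fun _ _ => sq_nonneg _

theorem ricSq_nonneg {m : ℕ} (e : OrthonormalBasis (Fin m × Bool) ℝ V)
    (R : V → V → V → V → ℝ) : 0 ≤ ricSq e R :=
  Finset.sum_nonneg fun _ _ => Finset.sum_nonneg fun _ _ => sq_nonneg _

/-- scalar curvature squared is at most `15 |R|²` -/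
theorem scal_sq_le (e : OrthonormalBasis (Fin 3 × Bool) ℝ V) (hR : AlgCurv R) :
    scal e R ^ 2 ≤ 15 * curvSq e R := by
  obtain ⟨h, s, H, -, h2, h3, -, -⟩ := spectral e hR
  rw [h2, h3]
  have := sq_sum_le_card_mul_sum_sq (s := (univ : Finset (Pr (Fin 3 × Bool)))) (f := s)
  rw [Finset.card_univ, card_Pr H card6] at this
  push_cast at this
  nlinarith

theorem sign_pos (e : OrthonormalBasis (Fin 3 × Bool) ℝ V) (hR : AlgCurv R)
    (hp : 2 * curvSq e R + 4 * ricSq e R < scal e R ^ 2) : 0 < scal e R * gbc e R := by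
  have h1 := sign_bound e hR
  have h2 := scal_sq_le e hR
  have h3 := curvSq_nonneg e R
  have h4 := ricSq_nonneg e R
  have h5 : 0 < curvSq e R := by nlinarith
  refine lt_of_lt_of_le ?_ h1
  have hπ := Real.pi_pos
  have h6 : 0 < scal e R ^ 2 - 2 * curvSq e R - 4 * ricSq e R := by linarith
  positivity

theorem sign_pull (e : OrthonormalBasis (Fin 3 × Bool) ℝ V) (hR : AlgCurv R) (A : V →ₗ[ℝ] V)
    (hp : 2 * curvSq e (pull A R) + 4 * ricSq e (pull A R) < scal e (pull A R) ^ 2) :
    0 < scal e (pull A R) * gbc e R := by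
  have h1 := sign_pos e (pull_curv hR A) hp
  rw [gbc_pull hR] at h1
  have h2 : scal e (pull A R) * (LinearMap.det A ^ 2 * gbc e R) =
      LinearMap.det A ^ 2 * (scal e (pull A R) * gbc e R) := by ring
  rw [h2] at h1
  exact pos_of_mul_pos_right h1 (sq_nonneg _)

theorem ein_sign (e : OrthonormalBasis (Fin 3 × Bool) ℝ V) (hR : AlgCurv R) {κ : ℝ}
    (hE : ∀ v w : V, ∑ i, R (e i) v (e i) w = 5 * κ * inner ℝ v w) :
    (curvSq e R ≤ 150 * κ ^ 2 → 0 ≤ κ * gbc e R) ∧
      (curvSq e R < 150 * κ ^ 2 → 0 < κ * gbc e R) := by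
  have h1 := sign_bound e hR
  have h3 := curvSq_nonneg e R
  have hπ := Real.pi_pos
  have hs : scal e R = 30 * κ := by
    rw [scal_of_ein hE]; push_cast; ring
  have hr : ricSq e R = 150 * κ ^ 2 := by
    rw [ricSq_of_ein hE]; push_cast; ring
  rw [hs, hr] at h1
  refine ⟨fun h => ?_, fun h => ?_⟩
  · have h2 : 0 ≤ (30 * κ) ^ 2 - 2 * curvSq e R - 4 * (150 * κ ^ 2) := by nlinarith
    have h4 : 0 ≤ 1 / (256 * Real.pi ^ 3) *
        (curvSq e R * ((30 * κ) ^ 2 - 2 * curvSq e R - 4 * (150 * κ ^ 2))) := by positivity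
    nlinarith
  · have h2 := sign_pos e hR (by rw [hs, hr]; nlinarith)
    rw [hs] at h2
    nlinarith

open MeasureTheory

variable {M : Type} [MeasurableSpace M] {μ : Measure M}

theorem int_neg (K : Pool.Agent.W666.GB.CurvField 3 M) (hμ : μ ≠ 0) (hi : Integrable K.gb μ)
    (h : ∀ p, ∃ A : K.V p →ₗ[ℝ] K.V p,
      2 * curvSq (K.e p) (pull A (K.R p)) + 4 * ricSq (K.e p) (pull A (K.R p)) <
        scal (K.e p) (pull A (K.R p)) ^ 2 ∧ scal (K.e p) (pull A (K.R p)) < 0) :
    ∫ p, K.gb p ∂μ < 0 := by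
  have hneg : ∀ p, 0 < -K.gb p := by
    intro p
    obtain ⟨A, h1, h2⟩ := h p
    have h3 := sign_pull (K.e p) (K.curv p) A h1
    have h4 : K.gb p = gbc (K.e p) (K.R p) := rfl
    rw [h4]
    by_contra hcon
    push Not at hcon
    nlinarith
  have h0 : 0 ≤ fun p => -K.gb p := fun p => (hneg p).le
  have h1 : 0 < ∫ p, -K.gb p ∂μ := by
    rw [integral_pos_iff_support_of_nonneg h0 hi.neg]
    have hs : Function.support (fun p => -K.gb p) = Set.univ := by
      ext p
      simp only [Function.mem_support, Set.mem_univ, iff_true]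
      exact (hneg p).ne'
    rw [hs]
    exact pos_iff_ne_zero.2 (by simpa using hμ)
  rw [integral_neg] at h1
  linarith

theorem int_const (K : Pool.Agent.W666.GB.CurvField 3 M) (hi : Integrable K.gb μ) {s : ℝ}
    (hs : s < 0) (hc : ∀ p, scal (K.e p) (K.R p) = s)
    (h : 0 < ∫ p, curvSq (K.e p) (K.R p) *
        (s ^ 2 - 2 * curvSq (K.e p) (K.R p) - 4 * ricSq (K.e p) (K.R p)) ∂μ) :
    ∫ p, K.gb p ∂μ < 0 := by
  have hint : Integrable (fun p => curvSq (K.e p) (K.R p) *
        (s ^ 2 - 2 * curvSq (K.e p) (K.R p) - 4 * ricSq (K.e p) (K.R p))) μ := by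
    by_contra hcon
    rw [integral_undef hcon] at h
    exact lt_irrefl _ h
  have h1 : ∫ p, 1 / (256 * Real.pi ^ 3) * (curvSq (K.e p) (K.R p) *
        (s ^ 2 - 2 * curvSq (K.e p) (K.R p) - 4 * ricSq (K.e p) (K.R p))) ∂μ ≤
      ∫ p, s * K.gb p ∂μ := by
    refine integral_mono (hint.const_mul _) (hi.const_mul _) fun p => ?_
    have := sign_bound (K.e p) (K.curv p)
    rw [hc p] at this
    exact this
  rw [integral_const_mul, integral_const_mul] at h1
  have hπ := Real.pi_pos
  have h2 : 0 < 1 / (256 * Real.pi ^ 3) * ∫ p, curvSq (K.e p) (K.R p) *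
        (s ^ 2 - 2 * curvSq (K.e p) (K.R p) - 4 * ricSq (K.e p) (K.R p)) ∂μ := by positivity
  by_contra hcon
  push Not at hcon
  nlinarith

theorem abs_bound (e : OrthonormalBasis (Fin 3 × Bool) ℝ V) (hR : AlgCurv R) :
    |gbc e R| ≤ roundGB 3 1 * Real.sqrt (curvSq e R / 60) ^ 3 := by
  have hpos : 0 < roundGB 3 1 := Pool.Agent.W666.GB.roundGB_pos one_pos
  refine abs_le_of_sq_le_sq ?_ (by positivity)
  refine (norm_bound e hR).trans (le_of_eq ?_)
  have h1 : Real.sqrt (curvSq e R / 60) ^ 2 = curvSq e R / 60 :=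
    Real.sq_sqrt (div_nonneg (curvSq_nonneg e R) (by norm_num))
  calc roundGB 3 1 ^ 2 * (curvSq e R / 60) ^ 3 =
      roundGB 3 1 ^ 2 * (Real.sqrt (curvSq e R / 60) ^ 2) ^ 3 := by rw [h1]
    _ = _ := by ring

theorem int_norm (K : Pool.Agent.W666.GB.CurvField 3 M)
    (h : Integrable (fun p => Real.sqrt (curvSq (K.e p) (K.R p) / 60) ^ 3) μ) :
    |∫ p, K.gb p ∂μ| ≤ roundGB 3 1 * ∫ p, Real.sqrt (curvSq (K.e p) (K.R p) / 60) ^ 3 ∂μ := by
  rw [← integral_const_mul]
  refine (abs_integral_le_integral_abs).trans ?_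
  refine integral_mono_of_nonneg (Filter.Eventually.of_forall fun p => abs_nonneg _)
    (h.const_mul _) (Filter.Eventually.of_forall fun p => ?_)
  exact abs_bound (K.e p) (K.curv p)

end Pool.Agent.X179.NB
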