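import Pool.Agent.X179.NB.Sharp

/-!
# Einstein tensors in dimension six: the sharp cubic bound of the Weyl part
-/

set_option autoImplicit false

namespace Pool.Agent.X179.NB

open Finset Pool.Agent.TH594.HP Pool.Agent.TH594.HE
open Pool.Agent.W666.GB (AlgCurv gbc scal roundGB unitCurv sn)
open Pool.Agent.W669.HD (T4 gm cp unitT cp_unit unit_curv)
open Pool.Agent.X179.EP

variable {V : Type} [NormedAddCommGroup V] [InnerProductSpace ℝ V]
  {R : V → V → V → V → ℝ}

/-- squared norm of `R - κ U`, the Weyl part of a tensor with `Ric = 5 κ` -/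
noncomputable def weylSq (e : OrthonormalBasis (Fin 3 × Bool) ℝ V) (R : V → V → V → V → ℝ)
    (κ : ℝ) : ℝ :=
  curvSq e (fun x y z w => R x y z w - κ * unitT x y z w)

theorem weyl_eq (R : V → V → V → V → ℝ) (κ : ℝ) :
    (fun x y z w => R x y z w - κ * unitT x y z w) = shiftT R (-κ) := by
  funext x y z w
  unfold shiftT
  ring

theorem curvSq_shift (e : OrthonormalBasis (Fin 3 × Bool) ℝ V) (hR : AlgCurv R) (c : ℝ) :
    curvSq e (shiftT R c) = curvSq e R + 4 * c * scal e R + 60 * c ^ 2 := by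
  have h1 : ∀ i j k l, shiftT R c (e i) (e j) (e k) (e l) ^ 2 =
      R (e i) (e j) (e k) (e l) ^ 2 +
        2 * c * (unitCurv i j k l * R (e i) (e j) (e k) (e l)) + c ^ 2 * unitCurv i j k l ^ 2 := by
    intro i j k l
    unfold shiftT
    rw [cp_unit]
    ring
  have h2 : ∀ i j : Fin 3 × Bool, ∑ k, ∑ l, unitCurv i j k l * R (e i) (e j) (e k) (e l) =
      2 * R (e i) (e j) (e i) (e j) := by
    intro i j
    have h3 : ∀ k l : Fin 3 × Bool, unitCurv i j k l * R (e i) (e j) (e k) (e l) =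
        (if i = k then (if j = l then R (e i) (e j) (e k) (e l) else 0) else 0) -
        (if j = k then (if i = l then R (e i) (e j) (e k) (e l) else 0) else 0) := by
      intro k l
      unfold unitCurv
      by_cases h1 : i = k
      · by_cases h2 : j = l
        · by_cases h3 : j = k
          · subst h1; subst h2; subst h3; simp
          · subst h1; subst h2; simp [h3]
        · by_cases h3 : j = k
          · by_cases h4 : i = l
            · subst h1; subst h3; exact absurd h4 (fun h => h2 h)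
            · subst h1; simp [h2, h4]
          · simp [h1, h2, h3]
      · by_cases h3 : j = k
        · by_cases h4 : i = l
          · subst h3; subst h4; simp [h1]
          · simp [h1, h3, h4]
        · simp [h1, h3]
    simp only [h3, Finset.sum_sub_distrib, Finset.sum_ite_irrel, Finset.sum_const_zero,
      Finset.sum_ite_eq, Finset.mem_univ, if_true]
    rw [hR.a34 (e i) (e j) (e j) (e i)]
    ring
  unfold curvSq
  simp only [h1, Finset.sum_add_distrib, ← Finset.mul_sum, h2, sum_unit_sq]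
  unfold scal
  have h4 : ∑ i : Fin 3 × Bool, ∑ j : Fin 3 × Bool, (2 - 2 * (if i = j then (1 : ℝ) else 0)) = 60 := by
    simp
    norm_num
  simp only [Finset.sum_sub_distrib, Finset.sum_const, ← Finset.mul_sum] at h4 ⊢
  nlinarith [h4]

theorem weylSq_ein (e : OrthonormalBasis (Fin 3 × Bool) ℝ V) (hR : AlgCurv R) {κ : ℝ}
    (hE : ∀ v w : V, ∑ i, R (e i) v (e i) w = 5 * κ * inner ℝ v w) :
    weylSq e R κ = curvSq e R - 60 * κ ^ 2 := by
  unfold weylSq
  rw [weyl_eq, curvSq_shift e hR, scal_of_ein hE]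
  push_cast
  ring

theorem weylSq_nonneg (e : OrthonormalBasis (Fin 3 × Bool) ℝ V) (R : V → V → V → V → ℝ)
    (κ : ℝ) : 0 ≤ weylSq e R κ := curvSq_nonneg e _

theorem ein_shift (e : OrthonormalBasis (Fin 3 × Bool) ℝ V) {κ : ℝ}
    (hE : ∀ v w : V, ∑ i, R (e i) v (e i) w = 5 * κ * inner ℝ v w) (c : ℝ) (v w : V) :
    ∑ i, shiftT R c (e i) v (e i) w = 5 * (κ + c) * inner ℝ v w := by
  unfold shiftT
  rw [Finset.sum_add_distrib, hE, ← Finset.mul_sum]
  have h1 : ∀ i, unitT (e i) v (e i) w = inner ℝ v w - inner ℝ (e i) w * inner ℝ v (e i) := by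
    intro i
    simp only [unitT, inner_e', if_true]
    ring
  have h3 : ∑ i, inner ℝ (e i) w * inner ℝ v (e i) = inner ℝ v w := by
    rw [← e.sum_inner_mul_inner v w]
    exact Finset.sum_congr rfl fun i _ => by ring
  simp only [h1, Finset.sum_sub_distrib, h3]
  simp
  ring

/-- one-parameter family of bounds -/
theorem weyl_family (e : OrthonormalBasis (Fin 3 × Bool) ℝ V) (hR : AlgCurv R) {κ : ℝ}
    (hE : ∀ v w : V, ∑ i, R (e i) v (e i) w = 5 * κ * inner ℝ v w) (t : ℝ) :
    -(3600 * t ^ 4 + 60 * t ^ 2 * weylSq e R κ + 2 * weylSq e R κ ^ 2) ≤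
      7680 * t * (Real.pi ^ 3 * gbc e R - 15 * κ ^ 3 / 8 - κ * weylSq e R κ / 64) := by
  have h1 := sign_bound e (shift_curv hR (t - κ))
  have h2 := ein_shift e hE (t - κ)
  rw [add_sub_cancel] at h2
  have hs : scal e (shiftT R (t - κ)) = 30 * t := by
    rw [scal_of_ein h2]; push_cast; ring
  have hr : ricSq e (shiftT R (t - κ)) = 150 * t ^ 2 := by
    rw [ricSq_of_ein h2]; push_cast; ring
  have hs0 : scal e R = 30 * κ := by
    rw [scal_of_ein hE]; push_cast; ring
  have hr0 : ricSq e R = 150 * κ ^ 2 := by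
    rw [ricSq_of_ein hE]; push_cast; ring
  have hw := weylSq_ein e hR hE
  have hc : curvSq e R = weylSq e R κ + 60 * κ ^ 2 := by linarith
  rw [hs, hr, curvSq_shift e hR, gbc_shift e hR, hs0, hr0, hc] at h1
  have hπ : 0 < Real.pi ^ 3 := by positivity
  generalize weylSq e R κ = w at *
  generalize gbc e R = g at *
  generalize Real.pi ^ 3 = P at *
  have h3 := mul_le_mul_of_nonneg_left h1 (show 0 ≤ 256 * P by positivity)
  have e1 : 256 * P * (1 / (256 * P) * ((w + 60 * κ ^ 2 + 4 * (t - κ) * (30 * κ) +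
      60 * (t - κ) ^ 2) * ((30 * t) ^ 2 - 2 * (w + 60 * κ ^ 2 + 4 * (t - κ) * (30 * κ) +
      60 * (t - κ) ^ 2) - 4 * (150 * t ^ 2)))) =
      (w + 60 * t ^ 2) * (180 * t ^ 2 - 2 * w) := by
    field_simp
    ring
  have e2 : 256 * P * (30 * t * (g + (t - κ) / (64 * P) * ((30 * κ) ^ 2 + (w + 60 * κ ^ 2) -
      4 * (150 * κ ^ 2)) + 3 * (t - κ) ^ 2 / (16 * P) * (30 * κ) +
      15 * (t - κ) ^ 3 / (8 * P))) =
      7680 * t * (P * g - 15 * κ ^ 3 / 8 - κ * w / 64) + 120 * t ^ 2 * w + 14400 * t ^ 4 := by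
    field_simp
    ring
  rw [e1, e2] at h3
  nlinarith [h3]

/-- the constant `7 / (576 √10 π³)` -/
noncomputable def cW : ℝ := 7 / (576 * Real.sqrt 10 * Real.pi ^ 3)

theorem cW_pos : 0 < cW := by
  unfold cW
  have := Real.pi_pos
  positivity

/-- **the sharp cubic bound** -/
theorem weyl_bound (e : OrthonormalBasis (Fin 3 × Bool) ℝ V) (hR : AlgCurv R) {κ : ℝ}
    (hE : ∀ v w : V, ∑ i, R (e i) v (e i) w = 5 * κ * inner ℝ v w) :
    |gbc e R - (15 * κ ^ 3 / (8 * Real.pi ^ 3) + κ / (64 * Real.pi ^ 3) * weylSq e R κ)| ≤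
      cW * Real.sqrt (weylSq e R κ) ^ 3 := by
  have hπ : 0 < Real.pi ^ 3 := by have := Real.pi_pos; positivity
  have hw := weylSq_nonneg e R κ
  have hfam := weyl_family e hR hE
  obtain ⟨u, hu0, hu⟩ : ∃ u : ℝ, 0 ≤ u ∧ u ^ 2 = weylSq e R κ :=
    ⟨Real.sqrt (weylSq e R κ), Real.sqrt_nonneg _, Real.sq_sqrt hw⟩
  have hsq : Real.sqrt (weylSq e R κ) = u := by rw [← hu]; exact Real.sqrt_sq hu0
  rw [hsq]
  have h10 : Real.sqrt 10 ^ 2 = 10 := Real.sq_sqrt (by norm_num)
  have h10p : 0 < Real.sqrt 10 := Real.sqrt_pos.2 (by norm_num)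
  rw [← hu]
  simp only [← hu] at hfam
  set s : ℝ := Real.sqrt 10 with hs
  set P : ℝ := Real.pi ^ 3 with hP
  set D : ℝ := P * gbc e R - 15 * κ ^ 3 / 8 - κ * u ^ 2 / 64 with hD
  have e1 : gbc e R - (15 * κ ^ 3 / (8 * P) + κ / (64 * P) * u ^ 2) = D / P := by
    rw [hD]
    field_simp
    ring
  have e2 : cW * u ^ 3 = (7 * u ^ 3 / (576 * s)) / P := by
    unfold cW
    rw [← hs, ← hP]
    field_simp
  rw [e1, e2, abs_div, abs_of_pos hπ]
  refine div_le_div_of_nonneg_right ?_ hπ.le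
  have key : ∀ t : ℝ, -(3600 * t ^ 4 + 60 * t ^ 2 * u ^ 2 + 2 * (u ^ 2) ^ 2) ≤ 7680 * t * D :=
    hfam
  have e3 : 7 * u ^ 3 / (576 * s) = 7 * u ^ 3 * s / 5760 := by
    rw [div_eq_div_iff (by positivity) (by norm_num)]
    calc 7 * u ^ 3 * 5760 = 7 * u ^ 3 * 576 * 10 := by ring
      _ = 7 * u ^ 3 * 576 * s ^ 2 := by rw [h10]
      _ = _ := by ring
  rw [e3]
  rcases eq_or_lt_of_le hu0 with h0 | h0
  · -- the case `u = 0`
    have hD0 : D = 0 := by
      rw [← h0] at key
      by_contra hne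
      rcases lt_or_gt_of_ne hne with h | h
      · -- `D < 0`
        obtain ⟨t, ht0, ht⟩ : ∃ t : ℝ, 0 < t ∧ 3600 * t ^ 3 < -(7680 * D) := by
          refine ⟨min 1 (-D), lt_min one_pos (by linarith), ?_⟩
          have h1 : min 1 (-D) ≤ 1 := min_le_left _ _
          have h2 : min 1 (-D) ≤ -D := min_le_right _ _
          have h3 : 0 < min 1 (-D) := lt_min one_pos (by linarith)
          have h4 : min 1 (-D) ^ 3 ≤ min 1 (-D) := by
            calc min 1 (-D) ^ 3 = min 1 (-D) * min 1 (-D) ^ 2 := by ring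
              _ ≤ min 1 (-D) * 1 := mul_le_mul_of_nonneg_left (by nlinarith) h3.le
              _ = _ := by ring
          linarith
        have := key t
        nlinarith [mul_pos ht0 (show 0 < -(7680 * D) - 3600 * t ^ 3 by linarith)]
      · obtain ⟨t, ht0, ht⟩ : ∃ t : ℝ, 0 < t ∧ 3600 * t ^ 3 < 7680 * D := by
          refine ⟨min 1 D, lt_min one_pos h, ?_⟩
          have h1 : min 1 D ≤ 1 := min_le_left _ _
          have h2 : min 1 D ≤ D := min_le_right _ _
          have h3 : 0 < min 1 D := lt_min one_pos h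
          have h4 : min 1 D ^ 3 ≤ min 1 D := by
            calc min 1 D ^ 3 = min 1 D * min 1 D ^ 2 := by ring
              _ ≤ min 1 D * 1 := mul_le_mul_of_nonneg_left (by nlinarith) h3.le
              _ = _ := by ring
          linarith
        have := key (-t)
        nlinarith [mul_pos ht0 (show 0 < 7680 * D - 3600 * t ^ 3 by linarith)]
    rw [hD0, abs_zero, ← h0]
    norm_num
  · -- `t = u / √90 = u s / 30`
    have k1 := key (u * s / 30)
    have k2 := key (-(u * s / 30))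
    have e4 : 3600 * (u * s / 30) ^ 4 + 60 * (u * s / 30) ^ 2 * u ^ 2 + 2 * (u ^ 2) ^ 2 =
        28 / 9 * u ^ 4 := by
      have : (u * s / 30) ^ 2 = u ^ 2 / 90 := by
        rw [div_pow, mul_pow, h10]
        ring
      have h4 : (u * s / 30) ^ 4 = (u ^ 2 / 90) ^ 2 := by
        rw [← this]; ring
      rw [h4, this]
      ring
    have e5 : 3600 * (-(u * s / 30)) ^ 4 + 60 * (-(u * s / 30)) ^ 2 * u ^ 2 + 2 * (u ^ 2) ^ 2 =
        28 / 9 * u ^ 4 := by
      rw [← e4]; ring
    rw [e4] at k1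
    rw [e5] at k2
    have hus : 0 < u * s := mul_pos h0 h10p
    have e6 : u * s * (7 * u ^ 3 * s / 5760) = 7 / 576 * u ^ 4 := by
      calc u * s * (7 * u ^ 3 * s / 5760) = 7 * u ^ 4 / 5760 * s ^ 2 := by ring
        _ = _ := by rw [h10]; ring
    rw [abs_le]
    constructor
    · have : 0 ≤ u * s * (D + 7 * u ^ 3 * s / 5760) := by
        rw [mul_add, e6]
        nlinarith [k1]
      have := nonneg_of_mul_nonneg_right this hus
      linarith
    · have : 0 ≤ u * s * (7 * u ^ 3 * s / 5760 - D) := by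
        rw [mul_sub, e6]
        nlinarith [k2]
      have := nonneg_of_mul_nonneg_right this hus
      linarith

end Pool.Agent.X179.NB
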