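import Pool.Agent.X179.NB.Weyl

/-!
# Einstein tensors in dimension six: sharpness of the cubic bound, and fields
-/

set_option autoImplicit false

namespace Pool.Agent.X179.NB

open Finset Pool.Agent.TH594.HP Pool.Agent.TH594.HE
open Pool.Agent.W666.GB (AlgCurv gbc scal roundGB unitCurv sn)
open Pool.Agent.W669.HD (T4 gm cp unitT cp_unit unit_curv)
open Pool.Agent.X179.EP

variable {V : Type} [NormedAddCommGroup V] [InnerProductSpace ℝ V]
  {R : V → V → V → V → ℝ}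

theorem curvSq_scale {m : ℕ} (e : OrthonormalBasis (Fin m × Bool) ℝ V) (R : V → V → V → V → ℝ)
    (t : ℝ) : curvSq e (fun x y z w => t * R x y z w) = t ^ 2 * curvSq e R := by
  unfold curvSq
  simp only [Finset.mul_sum]
  exact Finset.sum_congr rfl fun i _ => Finset.sum_congr rfl fun j _ =>
    Finset.sum_congr rfl fun k _ => Finset.sum_congr rfl fun l _ => by ring

/-- **the bound is attained**, for all values of `κ` and of the norm, with both signs -/
theorem weyl_sharp (e : OrthonormalBasis (Fin 3 × Bool) ℝ V) (κ ω : ℝ) :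
    ∃ R : V → V → V → V → ℝ, AlgCurv R ∧
      (∀ v w : V, ∑ i, R (e i) v (e i) w = 5 * κ * inner ℝ v w) ∧
      weylSq e R κ = ω ^ 2 ∧
      gbc e R = 15 * κ ^ 3 / (8 * Real.pi ^ 3) + κ / (64 * Real.pi ^ 3) * ω ^ 2 + cW * ω ^ 3 := by
  set s : ℝ := -(ω * Real.sqrt 10 / 12) with hs
  have h10 : Real.sqrt 10 ^ 2 = 10 := Real.sq_sqrt (by norm_num)
  have h10p : 0 < Real.sqrt 10 := Real.sqrt_pos.2 (by norm_num)
  have hW : AlgCurv (fun x y z w => s * RR e (1 / 10) x y z w) := scale_curv (RR_curv e _) _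
  have hW0 : ∀ v w : V, ∑ i, s * RR e (1 / 10) (e i) v (e i) w = 5 * 0 * inner ℝ v w := by
    intro v w
    rw [← Finset.mul_sum, RR_ein]
    ring
  have hE : ∀ v w : V, ∑ i, shiftT (fun x y z w => s * RR e (1 / 10) x y z w) κ (e i) v (e i) w =
      5 * κ * inner ℝ v w := by
    intro v w
    rw [ein_shift e hW0 κ v w]
    ring
  refine ⟨shiftT (fun x y z w => s * RR e (1 / 10) x y z w) κ, shift_curv hW κ, hE, ?_, ?_⟩
  · have h1 : (fun x y z w => shiftT (fun x y z w => s * RR e (1 / 10) x y z w) κ x y z w -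
        κ * unitT x y z w) = fun x y z w => s * RR e (1 / 10) x y z w := by
      funext x y z w
      unfold shiftT
      ring
    unfold weylSq
    rw [h1, curvSq_scale, curvSq_RR, hs]
    have : (-(ω * Real.sqrt 10 / 12)) ^ 2 = ω ^ 2 * Real.sqrt 10 ^ 2 / 144 := by ring
    rw [this, h10]
    ring
  · rw [gbc_shift e hW, scal_of_ein hW0, ricSq_of_ein hW0, curvSq_scale, curvSq_RR, gbc_scale,
      gbc_RR]
    unfold cW
    have hπ := Real.pi_ne_zero
    have e1 : s ^ 3 = -(ω ^ 3 * (10 * Real.sqrt 10) / 1728) := by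
      have : s ^ 3 = -(ω ^ 3 * (Real.sqrt 10 ^ 2 * Real.sqrt 10) / 1728) := by rw [hs]; ring
      rw [this, h10]
    have e2 : s ^ 2 = ω ^ 2 * 10 / 144 := by
      have : s ^ 2 = ω ^ 2 * Real.sqrt 10 ^ 2 / 144 := by rw [hs]; ring
      rw [this, h10]
    rw [e1, e2]
    have e3 : 7 / (576 * Real.sqrt 10 * Real.pi ^ 3) = 7 * Real.sqrt 10 / (5760 * Real.pi ^ 3) := by
      rw [div_eq_div_iff (by positivity) (by positivity)]
      calc 7 * (5760 * Real.pi ^ 3) = 7 * 576 * Real.pi ^ 3 * 10 := by ring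
        _ = 7 * 576 * Real.pi ^ 3 * Real.sqrt 10 ^ 2 := by rw [h10]
        _ = _ := by ring
    rw [e3]
    field_simp
    ring

open MeasureTheory

variable {M : Type} [MeasurableSpace M] {μ : Measure M}

/-- integrated bound -/
theorem int_weyl [IsFiniteMeasure μ] (K : Pool.Agent.W666.GB.CurvField 3 M) {κ : ℝ}
    (hE : ∀ p, ∀ v w : K.V p, ∑ i, K.R p (K.e p i) v (K.e p i) w = 5 * κ * inner ℝ v w)
    (hi : Integrable K.gb μ) (h2 : Integrable (fun p => weylSq (K.e p) (K.R p) κ) μ)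
    (h3 : Integrable (fun p => Real.sqrt (weylSq (K.e p) (K.R p) κ) ^ 3) μ) :
    |∫ p, K.gb p ∂μ - (15 * κ ^ 3 / (8 * Real.pi ^ 3) * μ.real Set.univ +
      κ / (64 * Real.pi ^ 3) * ∫ p, weylSq (K.e p) (K.R p) κ ∂μ)| ≤
      cW * ∫ p, Real.sqrt (weylSq (K.e p) (K.R p) κ) ^ 3 ∂μ := by
  have e1 : ∫ p, K.gb p ∂μ - (15 * κ ^ 3 / (8 * Real.pi ^ 3) * μ.real Set.univ +
      κ / (64 * Real.pi ^ 3) * ∫ p, weylSq (K.e p) (K.R p) κ ∂μ) =
      ∫ p, (K.gb p - (15 * κ ^ 3 / (8 * Real.pi ^ 3) +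
        κ / (64 * Real.pi ^ 3) * weylSq (K.e p) (K.R p) κ)) ∂μ := by
    have h4 : Integrable (fun p => 15 * κ ^ 3 / (8 * Real.pi ^ 3) +
        κ / (64 * Real.pi ^ 3) * weylSq (K.e p) (K.R p) κ) μ :=
      (integrable_const _).add (h2.const_mul _)
    rw [integral_sub hi h4, integral_add (integrable_const _) (h2.const_mul _), integral_const,
      integral_const_mul, smul_eq_mul]
    ring
  rw [e1, ← integral_const_mul]
  refine (abs_integral_le_integral_abs).trans ?_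
  refine integral_mono_of_nonneg (Filter.Eventually.of_forall fun p => abs_nonneg _)
    (h3.const_mul _) (Filter.Eventually.of_forall fun p => ?_)
  exact weyl_bound (K.e p) (K.curv p) (hE p)

theorem cW_inv : 15 / (8 * Real.pi ^ 3) = cW * (1080 * Real.sqrt 10 / 7) := by
  unfold cW
  have h10p : 0 < Real.sqrt 10 := Real.sqrt_pos.2 (by norm_num)
  have hπ := Real.pi_pos
  field_simp
  norm_num

/-- constants of curvature of one sign: `χ κ ≤ 0` forces `L³` curvature -/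
theorem int_opp [IsFiniteMeasure μ] (K : Pool.Agent.W666.GB.CurvField 3 M) {κ : ℝ}
    (hE : ∀ p, ∀ v w : K.V p, ∑ i, K.R p (K.e p i) v (K.e p i) w = 5 * κ * inner ℝ v w)
    (hi : Integrable K.gb μ) (h2 : Integrable (fun p => weylSq (K.e p) (K.R p) κ) μ)
    (h3 : Integrable (fun p => Real.sqrt (weylSq (K.e p) (K.R p) κ) ^ 3) μ)
    (hs : κ * ∫ p, K.gb p ∂μ ≤ 0) :
    15 * |κ| ^ 3 / (8 * Real.pi ^ 3) * μ.real Set.univ +
      |κ| / (64 * Real.pi ^ 3) * ∫ p, weylSq (K.e p) (K.R p) κ ∂μ ≤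
      cW * ∫ p, Real.sqrt (weylSq (K.e p) (K.R p) κ) ^ 3 ∂μ := by
  have h := int_weyl K hE hi h2 h3
  have hw : 0 ≤ ∫ p, Real.sqrt (weylSq (K.e p) (K.R p) κ) ^ 3 ∂μ :=
    integral_nonneg fun p => by positivity
  have hc := cW_pos
  rcases lt_trichotomy κ 0 with hk | hk | hk
  · rw [abs_of_neg hk]
    have h4 : 0 ≤ ∫ p, K.gb p ∂μ := by
      by_contra hcon
      push Not at hcon
      nlinarith
    have h5 := (abs_le.1 h).2
    have e1 : 15 * (-κ) ^ 3 / (8 * Real.pi ^ 3) * μ.real Set.univ +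
        -κ / (64 * Real.pi ^ 3) * ∫ p, weylSq (K.e p) (K.R p) κ ∂μ =
        -(15 * κ ^ 3 / (8 * Real.pi ^ 3) * μ.real Set.univ +
          κ / (64 * Real.pi ^ 3) * ∫ p, weylSq (K.e p) (K.R p) κ ∂μ) := by ring
    rw [e1]
    linarith
  · subst hk
    simp only [abs_zero]
    norm_num
    positivity
  · rw [abs_of_pos hk]
    have h4 : ∫ p, K.gb p ∂μ ≤ 0 := by
      by_contra hcon
      push Not at hcon
      nlinarith
    have h5 := (abs_le.1 h).1
    linarith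

/-- the gap: `χ ≥ 4` and the volume of at most that of the sphere force `∫ |W|³ ≥ 10000` -/
theorem int_gap [IsFiniteMeasure μ] (K : Pool.Agent.W666.GB.CurvField 3 M) {κ : ℝ} (hκ : 0 < κ)
    (hE : ∀ p, ∀ v w : K.V p, ∑ i, K.R p (K.e p i) v (K.e p i) w = 5 * κ * inner ℝ v w)
    (hi : Integrable K.gb μ) (h2 : Integrable (fun p => weylSq (K.e p) (K.R p) κ) μ)
    (h3 : Integrable (fun p => Real.sqrt (weylSq (K.e p) (K.R p) κ) ^ 3) μ)
    (hvol : κ ^ 3 * μ.real Set.univ ≤ 16 * Real.pi ^ 3 / 15)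
    (hχ : 4 ≤ ∫ p, K.gb p ∂μ) :
    10000 ≤ ∫ p, Real.sqrt (weylSq (K.e p) (K.R p) κ) ^ 3 ∂μ := by
  have h := (abs_le.1 (int_weyl K hE hi h2 h3)).2
  have hpt : ∀ p, κ * weylSq (K.e p) (K.R p) κ ≤
      8 / 81 * Real.sqrt (weylSq (K.e p) (K.R p) κ) ^ 3 + 243 / 16 * κ ^ 3 := by
    intro p
    have hx := Real.sqrt_nonneg (weylSq (K.e p) (K.R p) κ)
    have hx2 : Real.sqrt (weylSq (K.e p) (K.R p) κ) ^ 2 = weylSq (K.e p) (K.R p) κ :=
      Real.sq_sqrt (weylSq_nonneg _ _ _)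
    generalize Real.sqrt (weylSq (K.e p) (K.R p) κ) = x at *
    rw [← hx2]
    nlinarith [mul_nonneg (add_nonneg (mul_nonneg (show (0 : ℝ) ≤ 2 by norm_num) hx)
      (show 0 ≤ 27 / 4 * κ by positivity)) (sq_nonneg (x - 27 / 4 * κ))]
  have hint : κ * ∫ p, weylSq (K.e p) (K.R p) κ ∂μ ≤
      8 / 81 * ∫ p, Real.sqrt (weylSq (K.e p) (K.R p) κ) ^ 3 ∂μ +
        243 / 16 * (κ ^ 3 * μ.real Set.univ) := by
    have h4 : ∫ p, κ * weylSq (K.e p) (K.R p) κ ∂μ ≤
        ∫ p, (8 / 81 * Real.sqrt (weylSq (K.e p) (K.R p) κ) ^ 3 + 243 / 16 * κ ^ 3) ∂μ :=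
      integral_mono (h2.const_mul _) ((h3.const_mul _).add (integrable_const _)) hpt
    rw [integral_add (h3.const_mul _) (integrable_const _), integral_const_mul,
      integral_const_mul, integral_const, smul_eq_mul] at h4
    linarith
  set N : ℝ := ∫ p, Real.sqrt (weylSq (K.e p) (K.R p) κ) ^ 3 ∂μ with hN
  have hN0 : 0 ≤ N := integral_nonneg fun p => by positivity
  have hπ := Real.pi_pos
  set P : ℝ := Real.pi ^ 3 with hP
  have hP0 : 0 < P := by positivity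
  have hP1 : (3.14 : ℝ) ^ 3 ≤ P := pow_le_pow_left₀ (by norm_num) Real.pi_gt_d2.le 3
  -- the constant
  have hc : cW ≤ 7 / (576 * (79 / 25)) / P := by
    unfold cW
    rw [← hP, ← div_div]
    refine div_le_div_of_nonneg_right ?_ hP0.le
    refine div_le_div_of_nonneg_left (by norm_num) (by norm_num) ?_
    have : (79 / 25 : ℝ) ≤ Real.sqrt 10 := Real.le_sqrt_of_sq_le (by norm_num)
    linarith
  have h5 : 4 * P ≤ 15 * (κ ^ 3 * μ.real Set.univ) / 8 +
      (κ * ∫ p, weylSq (K.e p) (K.R p) κ ∂μ) / 64 + 7 / (576 * (79 / 25)) * N := by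
    have h6 : ∫ p, K.gb p ∂μ ≤ 15 * κ ^ 3 / (8 * P) * μ.real Set.univ +
        κ / (64 * P) * ∫ p, weylSq (K.e p) (K.R p) κ ∂μ + 7 / (576 * (79 / 25)) / P * N := by
      have := mul_le_mul_of_nonneg_right hc hN0
      linarith
    have h7 := mul_le_mul_of_nonneg_right (hχ.trans h6) hP0.le
    have e1 : (15 * κ ^ 3 / (8 * P) * μ.real Set.univ +
        κ / (64 * P) * ∫ p, weylSq (K.e p) (K.R p) κ ∂μ + 7 / (576 * (79 / 25)) / P * N) * P =
        15 * (κ ^ 3 * μ.real Set.univ) / 8 +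
      (κ * ∫ p, weylSq (K.e p) (K.R p) κ ∂μ) / 64 + 7 / (576 * (79 / 25)) * N := by
      field_simp
    rw [e1] at h7
    exact h7
  norm_num at h5 hP1 ⊢
  nlinarith

end Pool.Agent.X179.NB
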